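import Pool.Agent.Q250.PS.Sperner

set_option autoImplicit false

open Finset Filter Topology

namespace Pool.Agent.Q250.PS

lemma V_le (N : ℕ) : V N ≤ 3 := by
  have h1 : V N ≤ Real.exp (∑ p ∈ N.primesBelow, 1 / ((p : ℝ) * ((p : ℝ) - 1))) := by
    rw [Real.exp_sum]
    unfold V
    refine prod_le_prod (fun p hp => ?_) (fun p hp => ?_)
    · have := prime_cast (Nat.prime_of_mem_primesBelow hp)
      have : 0 < (p : ℝ) * ((p : ℝ) - 1) := by apply mul_pos <;> linarith
      positivity
    · rw [add_comm]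
      exact Real.add_one_le_exp _
  have h2 : ∀ n : ℕ, ∑ p ∈ (range n).filter (2 ≤ ·), 1 / ((p : ℝ) * ((p : ℝ) - 1)) ≤
      1 - 1 / (max (n : ℝ) 2) + 1 / (max (n : ℝ) 2) := by
    intro n
    have h3 : ∀ n : ℕ, ∑ p ∈ (range (n + 2)).filter (2 ≤ ·), 1 / ((p : ℝ) * ((p : ℝ) - 1)) ≤
        1 - 1 / ((n : ℝ) + 1) := by
      intro n
      induction n with
      | zero =>
        rw [show (range (0 + 2)).filter (2 ≤ ·) = ∅ from by decide]
        simp
      | succ n ih =>
        rw [show n + 1 + 2 = (n + 2) + 1 by ring, range_add_one, filter_insert, if_pos (by omega),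
          sum_insert (by simp)]
        push_cast
        have h4 : 1 / (((n : ℝ) + 2) * ((n : ℝ) + 2 - 1)) = 1 / ((n : ℝ) + 1) - 1 / ((n : ℝ) + 1 + 1) := by
          have : (n : ℝ) + 1 ≠ 0 := by positivity
          have : (n : ℝ) + 2 ≠ 0 := by positivity
          have h5 : (n : ℝ) + 2 - 1 = n + 1 := by ring
          have h6 : (n : ℝ) + 1 + 1 = n + 2 := by ring
          rw [h5, h6]
          field_simp
          ring
        rw [h4]
        linarith
    rcases lt_or_ge n 2 with hn | hn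
    · have : (range n).filter (2 ≤ ·) = ∅ := by
        rw [filter_eq_empty_iff]
        intro x hx
        rw [mem_range] at hx
        omega
      rw [this]
      simp
    · obtain ⟨k, rfl⟩ := Nat.exists_eq_add_of_le' hn
      refine (h3 k).trans ?_
      have : (0 : ℝ) < 1 / ((k : ℝ) + 1) := by positivity
      linarith
  have h4 : ∑ p ∈ N.primesBelow, 1 / ((p : ℝ) * ((p : ℝ) - 1)) ≤ 1 := by
    have h5 := h2 N
    rw [sub_add_cancel] at h5
    refine le_trans ?_ h5
    refine sum_le_sum_of_subset_of_nonneg ?_ ?_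
    · intro p hp
      rw [Nat.primesBelow, mem_filter] at hp
      rw [mem_filter]
      exact ⟨hp.1, hp.2.two_le⟩
    · intro p hp _
      rw [mem_filter] at hp
      have h2p : (2 : ℝ) ≤ p := by exact_mod_cast hp.2
      have : 0 < (p : ℝ) * ((p : ℝ) - 1) := by apply mul_pos <;> linarith
      positivity
  calc V N ≤ _ := h1
    _ ≤ Real.exp 1 := Real.exp_le_exp.2 h4
    _ ≤ 3 := by have := Real.exp_one_lt_d9; linarith

lemma κ_mul_Z (N : ℕ) : κ N * Z N = 1 := by
  induction N with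
  | zero => simp [κ, Z, Q]
  | succ N ih =>
    by_cases hN : N.Prime
    · have hnot : N ∉ N.primesBelow := Nat.notMem_primesBelow N
      have hZ : Z (N + 1) = (N : ℝ) / ((N : ℝ) - 1) * Z N := by
        unfold Z
        rw [Nat.primesBelow_succ, if_pos hN, prod_insert hnot]
      have hQ : Q (N + 1) = N * Q N := by
        unfold Q
        rw [Nat.primesBelow_succ, if_pos hN, prod_insert hnot]
      have hcop : Nat.Coprime N (Q N) := by
        unfold Q
        rw [Nat.coprime_prod_right_iff]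
        intro p hp
        rw [Nat.coprime_primes hN (Nat.prime_of_mem_primesBelow hp)]
        exact (Nat.lt_of_mem_primesBelow hp).ne'
      have hκ : κ (N + 1) = (((N : ℝ) - 1) / N) * κ N := by
        unfold κ
        rw [hQ, Nat.totient_mul hcop, Nat.totient_prime hN]
        push_cast [Nat.cast_sub hN.one_le]
        rw [mul_div_mul_comm]
      have hN1 : (N : ℝ) - 1 ≠ 0 := by have := prime_cast hN; linarith
      have hN0 : (N : ℝ) ≠ 0 := by have := prime_cast hN; linarith
      rw [hκ, hZ]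
      calc ((N : ℝ) - 1) / N * κ N * (N / ((N : ℝ) - 1) * Z N) = κ N * Z N := by field_simp
        _ = 1 := ih
    · have hZ : Z (N + 1) = Z N := by
        unfold Z; rw [Nat.primesBelow_succ, if_neg hN]
      have hκ : κ (N + 1) = κ N := by
        unfold κ Q; rw [Nat.primesBelow_succ, if_neg hN]
      rw [hκ, hZ, ih]

/-- `n ↦ 1 / n` -/
noncomputable def invHom : ℕ →* ℝ where
  toFun n := (n : ℝ)⁻¹
  map_one' := by simp
  map_mul' a b := by push_cast; rw [mul_inv]

lemma smooth_hasSum (N : ℕ) : Summable (fun m : N.smoothNumbers => ((m : ℕ) : ℝ)⁻¹) ∧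
    HasSum (fun m : N.smoothNumbers => ((m : ℕ) : ℝ)⁻¹) (Z N) := by
  have h := EulerProduct.summable_and_hasSum_smoothNumbers_prod_primesBelow_geometric
    (f := invHom) (fun {p} hp => by
      have := prime_cast hp
      show ‖((p : ℝ)⁻¹)‖ < 1
      rw [Real.norm_of_nonneg (by positivity)]
      exact inv_lt_one_of_one_lt₀ (by linarith)) N
  have h2 : (∏ p ∈ N.primesBelow, (1 - invHom p)⁻¹) = Z N := by
    unfold Z
    refine prod_congr rfl fun p hp => ?_
    show (1 - (p : ℝ)⁻¹)⁻¹ = _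
    have := prime_cast (Nat.prime_of_mem_primesBelow hp)
    have h3 : (p : ℝ) ≠ 0 := by linarith
    have h4 : (p : ℝ) - 1 ≠ 0 := by linarith
    rw [← one_div, ← one_div, one_sub_div h3, one_div_div]
  rw [h2] at h
  exact ⟨h.2.summable, h.2⟩

lemma W_one_le_Z (N : ℕ) : W 1 (N - 1) ≤ Z N := by
  classical
  have h := (smooth_hasSum N).2
  have h1 : W 1 (N - 1) = ∑ m ∈ Icc 1 (N - 1), ((m : ℝ))⁻¹ := by
    unfold W w
    refine sum_congr rfl fun m _ => ?_
    rw [Real.rpow_neg_one]
  have hmem : ∀ m ∈ Icc 1 (N - 1), m ∈ N.smoothNumbers := fun m hm => by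
    rw [mem_Icc] at hm
    exact Nat.mem_smoothNumbers_of_lt (by omega) (by omega)
  rw [h1, ← sum_attach]
  let g : {x // x ∈ Icc 1 (N - 1)} → N.smoothNumbers := fun x => ⟨x.1, hmem x.1 x.2⟩
  have hg : Function.Injective g := by
    intro x y hxy
    have : (g x : ℕ) = g y := by rw [hxy]
    exact Subtype.ext this
  have h2 : ∑ x ∈ (Icc 1 (N - 1)).attach, ((x.1 : ℕ) : ℝ)⁻¹ =
      ∑ m ∈ (Icc 1 (N - 1)).attach.image g, ((m : ℕ) : ℝ)⁻¹ := by
    rw [sum_image (fun x _ y _ hxy => hg hxy)]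
  rw [h2]
  exact sum_le_hasSum _ (fun _ _ => by positivity) h

lemma W_one_eq (n : ℕ) : ∑ i ∈ range n, 1 / ((i : ℝ) + 1) = W 1 n := by
  induction n with
  | zero => simp [W_zero]
  | succ n ih =>
    rw [sum_range_succ, W_succ, ih]
    unfold w
    rw [Real.rpow_neg_one]
    push_cast
    rw [one_div]

lemma W_one_tendsto : Tendsto (W 1) atTop atTop := by
  have h := Real.tendsto_sum_range_one_div_nat_succ_atTop
  refine h.congr fun n => ?_
  exact W_one_eq n

lemma Z_tendsto : Tendsto Z atTop atTop :=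
  tendsto_atTop_mono W_one_le_Z (W_one_tendsto.comp (tendsto_sub_atTop_nat 1))

/-- the central binomial coefficient is small -/
lemma centralBinom_sq (j : ℕ) : (Nat.centralBinom j) ^ 2 * (2 * j + 1) ≤ 16 ^ j := by
  induction j with
  | zero => simp
  | succ j ih =>
    have h := Nat.succ_mul_centralBinom_succ j
    have h2 : (j + 1) ^ 2 * ((Nat.centralBinom (j + 1)) ^ 2 * (2 * (j + 1) + 1)) ≤
        (j + 1) ^ 2 * 16 ^ (j + 1) := by
      calc (j + 1) ^ 2 * ((Nat.centralBinom (j + 1)) ^ 2 * (2 * (j + 1) + 1)) =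
          ((j + 1) * Nat.centralBinom (j + 1)) ^ 2 * (2 * j + 3) := by ring
        _ = (Nat.centralBinom j ^ 2 * (2 * j + 1)) * (4 * ((2 * j + 1) * (2 * j + 3))) := by
            rw [h]; ring
        _ ≤ 16 ^ j * (4 * (4 * (j + 1) ^ 2)) := by
            apply Nat.mul_le_mul ih
            apply Nat.mul_le_mul_left
            nlinarith
        _ = _ := by ring
    exact Nat.le_of_mul_le_mul_left h2 (by positivity)

lemma choose_half_le' (m : ℕ) : (m.choose (m / 2)) ^ 2 * (m + 1) ≤ 4 ^ m := by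
  rcases Nat.even_or_odd' m with ⟨j, rfl | rfl⟩
  · have h := centralBinom_sq j
    rw [Nat.centralBinom] at h
    rw [show 2 * j / 2 = j by omega, pow_mul]
    exact h
  · have h := centralBinom_sq (j + 1)
    have h1 : Nat.centralBinom (j + 1) = 2 * (2 * j + 1).choose j := by
      rw [Nat.centralBinom, show 2 * (j + 1) = (2 * j + 1) + 1 by ring, Nat.choose_succ_succ]
      have : (2 * j + 1).choose (j + 1) = (2 * j + 1).choose j := by
        rw [← Nat.choose_symm_of_eq_add (show 2 * j + 1 = j + (j + 1) by ring)]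
      rw [Nat.succ_eq_add_one, this]
      ring
    rw [show (2 * j + 1) / 2 = j by omega]
    rw [h1] at h
    have h2 : 4 * ((2 * j + 1).choose j ^ 2 * (2 * j + 1 + 1)) ≤ 4 * 4 ^ (2 * j + 1) := by
      calc 4 * ((2 * j + 1).choose j ^ 2 * (2 * j + 1 + 1)) ≤
          (2 * (2 * j + 1).choose j) ^ 2 * (2 * (j + 1) + 1) := by nlinarith [Nat.zero_le ((2 * j + 1).choose j)]
        _ ≤ 16 ^ (j + 1) := h
        _ = 4 * 4 ^ (2 * j + 1) := by
            rw [show (16 : ℕ) = 4 ^ 2 by norm_num, ← pow_mul]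
            ring
    omega

lemma choose_half_le (m : ℕ) : ((m.choose (m / 2) : ℕ) : ℝ) ^ 2 * (m + 1) ≤ 4 ^ m := by
  exact_mod_cast choose_half_le' m

lemma choose_small {β : ℝ} (hβ : 0 < β) : ∃ M : ℕ, ∀ m : ℕ, M ≤ m →
    (m.choose (m / 2) : ℝ) ≤ β * 2 ^ m := by
  obtain ⟨M, hM⟩ := exists_nat_gt (1 / β ^ 2)
  refine ⟨M, fun m hm => ?_⟩
  have h := choose_half_le m
  have h1 : (1 : ℝ) ≤ β ^ 2 * (m + 1) := by
    have : (M : ℝ) ≤ m := by exact_mod_cast hm
    have h2 : 1 / β ^ 2 < (m : ℝ) + 1 := by linarith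
    rw [div_lt_iff₀ (by positivity)] at h2
    linarith
  have h3 : ((m.choose (m / 2) : ℕ) : ℝ) ^ 2 ≤ (β * 2 ^ m) ^ 2 := by
    have h4 : (0 : ℝ) ≤ ((m.choose (m / 2) : ℕ) : ℝ) ^ 2 := by positivity
    have h5 : (4 : ℝ) ^ m = (2 ^ m) ^ 2 := by
      rw [← pow_mul, mul_comm, pow_mul]; norm_num
    rw [mul_pow, ← h5]
    nlinarith [pow_pos (show (0 : ℝ) < 4 by norm_num) m, mul_nonneg h4 (sub_nonneg.2 h1), mul_le_mul_of_nonneg_left h (sq_nonneg β)]
  exact (pow_le_pow_iff_left₀ (by positivity) (by positivity) (by norm_num)).1 h3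

end Pool.Agent.Q250.PS
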