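import Pool.Agent.Q250.PS.Const

set_option autoImplicit false

open Finset Filter Topology

namespace Pool.Agent.Q250.PS

lemma coprime_of_smooth_rough {N s r : ℕ} (hs : s ∈ N.smoothNumbers) (hr : (Q N).Coprime r) :
    s.Coprime r := by
  rw [Nat.coprime_iff_gcd_eq_one]
  by_contra h
  obtain ⟨p, hp, hpd⟩ := Nat.exists_prime_and_dvd h
  have h1 : p ∣ s := hpd.trans (Nat.gcd_dvd_left _ _)
  have h2 : p ∣ r := hpd.trans (Nat.gcd_dvd_right _ _)
  have h3 : p < N := (Nat.mem_smoothNumbers'.1 hs) p hp h1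
  have h4 : p ∣ Q N := by
    unfold Q
    exact dvd_prod_of_mem _ (Nat.mem_primesBelow.2 ⟨h3, hp⟩)
  exact Nat.not_coprime_of_dvd_of_dvd hp.one_lt h4 h2 hr

lemma rough_ge {N r : ℕ} (h0 : 0 < r) (h1 : r ≠ 1) (hr : (Q N).Coprime r) : N ≤ r := by
  have hp := Nat.minFac_prime h1
  by_contra h
  have h3 : r.minFac < N := lt_of_le_of_lt (Nat.minFac_le h0) (by omega)
  have h4 : r.minFac ∣ Q N := by
    unfold Q
    exact dvd_prod_of_mem _ (Nat.mem_primesBelow.2 ⟨h3, hp⟩)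
  exact Nat.not_coprime_of_dvd_of_dvd hp.one_lt h4 (Nat.minFac_dvd r) hr

lemma exists_decomp (N : ℕ) {a : ℕ} (ha : a ≠ 0) :
    ∃ s r : ℕ, a = s * r ∧ s ∈ N.smoothNumbers ∧ (Q N).Coprime r := by
  refine ⟨(a.primeFactorsList.filter (· < N)).prod, (a.primeFactorsList.filter (¬ · < N)).prod,
    ?_, Nat.prod_mem_smoothNumbers a N, ?_⟩
  · have key : ∀ l : List ℕ, l.prod = (l.filter (· < N)).prod * (l.filter (¬ · < N)).prod := by
      intro l
      induction l with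
      | nil => simp
      | cons x l ih =>
        by_cases hx : x < N
        · have h1 : (x :: l).filter (· < N) = x :: l.filter (· < N) := by simp [hx]
          have h2 : (x :: l).filter (¬ · < N) = l.filter (¬ · < N) := by simp [hx]
          rw [h1, h2, List.prod_cons, List.prod_cons, mul_assoc, ← ih]
        · have h1 : (x :: l).filter (· < N) = l.filter (· < N) := by simp [hx]
          have h2 : (x :: l).filter (¬ · < N) = x :: l.filter (¬ · < N) := by
            rw [List.filter_cons, if_pos (by simpa using hx)]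
          rw [h1, h2, List.prod_cons, List.prod_cons, mul_left_comm, ← ih]
    rw [← key, Nat.prod_primeFactorsList ha]
  · rw [Nat.coprime_iff_gcd_eq_one]
    by_contra h
    obtain ⟨p, hp, hpd⟩ := Nat.exists_prime_and_dvd h
    have h1 : p ∣ Q N := hpd.trans (Nat.gcd_dvd_left _ _)
    have h2 : p ∣ (a.primeFactorsList.filter (¬ · < N)).prod := hpd.trans (Nat.gcd_dvd_right _ _)
    rw [Prime.dvd_prod_iff hp.prime] at h2
    obtain ⟨q, hq, hpq⟩ := h2
    rw [List.mem_filter] at hq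
    have hqp : q.Prime := Nat.prime_of_mem_primeFactorsList hq.1
    have hpq' : p = q := (Nat.prime_dvd_prime_iff_eq hp hqp).1 hpq
    subst hpq'
    unfold Q at h1
    rw [Prime.dvd_finsetProd_iff hp.prime] at h1
    obtain ⟨q, hq', hpq⟩ := h1
    have h5 := (Nat.prime_dvd_prime_iff_eq hp (Nat.prime_of_mem_primesBelow hq')).1 hpq
    have h6 := Nat.lt_of_mem_primesBelow hq'
    have h7 : ¬ p < N := by simpa using hq.2
    omega

open Classical in
/-- the smooth part -/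
noncomputable def sm (N a : ℕ) : ℕ := if h : a ≠ 0 then (exists_decomp N h).choose else 1

open Classical in
/-- the rough part -/
noncomputable def ro (N a : ℕ) : ℕ := if h : a ≠ 0 then (exists_decomp N h).choose_spec.choose else 1

lemma decomp_spec (N : ℕ) {a : ℕ} (ha : a ≠ 0) :
    a = sm N a * ro N a ∧ sm N a ∈ N.smoothNumbers ∧ (Q N).Coprime (ro N a) := by
  unfold sm ro
  rw [dif_pos ha, dif_pos ha]
  exact (exists_decomp N ha).choose_spec.choose_spec

lemma dvd_dvd {N s r s' r' : ℕ} (hs : s ∈ N.smoothNumbers) (hr : (Q N).Coprime r)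
    (hs' : s' ∈ N.smoothNumbers) (hr' : (Q N).Coprime r') (h : s * r ∣ s' * r') :
    s ∣ s' ∧ r ∣ r' := by
  constructor
  · exact (coprime_of_smooth_rough hs hr').dvd_of_dvd_mul_right ((dvd_mul_right s r).trans h)
  · exact (coprime_of_smooth_rough hs' hr).symm.dvd_of_dvd_mul_left ((dvd_mul_left r s).trans h)

lemma decomp_unique {N s r s' r' : ℕ} (hs : s ∈ N.smoothNumbers) (hr : (Q N).Coprime r)
    (hs' : s' ∈ N.smoothNumbers) (hr' : (Q N).Coprime r') (h : s * r = s' * r') :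
    s = s' ∧ r = r' := by
  obtain ⟨h1, h2⟩ := dvd_dvd hs hr hs' hr' (dvd_of_eq h)
  obtain ⟨h3, h4⟩ := dvd_dvd hs' hr' hs hr (dvd_of_eq h.symm)
  exact ⟨Nat.dvd_antisymm h1 h3, Nat.dvd_antisymm h2 h4⟩

/-- the rough numbers up to `n` -/
def rg (N n : ℕ) : Finset ℕ := (Ioc 0 n).filter (fun r => (Q N).Coprime r)

open Classical in
/-- the fibre of `A` over the rough number `r` -/
noncomputable def fib (N : ℕ) (A : Finset ℕ) (r : ℕ) : Finset ℕ :=
  (A.filter (fun a => ro N a = r)).image (sm N)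

lemma mem_fib {N : ℕ} {A : Finset ℕ} (hA : ∀ a ∈ A, 0 < a) {r : ℕ} (hr : (Q N).Coprime r) {s : ℕ} :
    s ∈ fib N A r ↔ s ∈ N.smoothNumbers ∧ s * r ∈ A := by
  classical
  unfold fib
  rw [mem_image]
  constructor
  · rintro ⟨a, ha, rfl⟩
    rw [mem_filter] at ha
    have h := decomp_spec N (hA a ha.1).ne'
    refine ⟨h.2.1, ?_⟩
    rw [← ha.2, ← h.1]
    exact ha.1
  · rintro ⟨hs, ha⟩
    have h := decomp_spec N (hA _ ha).ne'
    have h2 := decomp_unique hs hr h.2.1 h.2.2 h.1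
    exact ⟨s * r, mem_filter.2 ⟨ha, h2.2.symm⟩, h2.1.symm⟩

lemma fib_prim {N : ℕ} {A : Finset ℕ} (hA : ∀ a ∈ A, 0 < a) (hP : Prim A) {r : ℕ} (h0 : 0 < r)
    (hr : (Q N).Coprime r) : Prim (fib N A r) := by
  intro s hs s' hs' hd
  rw [mem_fib hA hr] at hs hs'
  have := hP _ hs.2 _ hs'.2 (Nat.mul_dvd_mul_right hd r)
  exact Nat.eq_of_mul_eq_mul_right h0 this

lemma sum_fib (N : ℕ) (A : Finset ℕ) (n : ℕ) (hA : ∀ a ∈ A, 0 < a ∧ a ≤ n) (σ : ℝ) :
    ∑ a ∈ A, w σ a = ∑ r ∈ rg N n, w σ r * ∑ s ∈ fib N A r, w σ s := by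
  classical
  have hmaps : ∀ a ∈ A, ro N a ∈ rg N n := by
    intro a ha
    have h := decomp_spec N (hA a ha).1.ne'
    unfold rg
    rw [mem_filter, mem_Ioc]
    have h1 : 0 < ro N a := Nat.pos_of_ne_zero fun h0 => by
      rw [h0, mul_zero] at h
      have := (hA a ha).1
      omega
    refine ⟨⟨h1, ?_⟩, h.2.2⟩
    have h2 : ro N a ≤ a := Nat.le_of_dvd (hA a ha).1 ⟨sm N a, by rw [mul_comm]; exact h.1⟩
    exact h2.trans (hA a ha).2
  rw [← sum_fiberwise_of_maps_to hmaps]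
  refine sum_congr rfl fun r hr => ?_
  unfold fib
  rw [sum_image, mul_sum]
  · refine sum_congr rfl fun a ha => ?_
    rw [mem_filter] at ha
    have h := decomp_spec N (hA a ha.1).1.ne'
    conv_lhs => rw [h.1]
    rw [w_mul, ha.2, mul_comm]
  · intro a ha b hb hab
    rw [mem_coe, mem_filter] at ha hb
    rw [(decomp_spec N (hA a ha.1).1.ne').1, (decomp_spec N (hA b hb.1).1.ne').1, hab, ha.2, hb.2]

open Classical in
/-- the largest weight of a primitive subset of `U` -/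
noncomputable def Mx (U : Finset ℕ) (f : ℕ → ℝ) : ℝ :=
  (U.powerset.filter Prim).sup' ⟨∅, by simp [Prim]⟩ (fun A => ∑ a ∈ A, f a)

lemma le_Mx {U A : Finset ℕ} (hA : A ⊆ U) (hP : Prim A) (f : ℕ → ℝ) : ∑ a ∈ A, f a ≤ Mx U f := by
  classical
  unfold Mx
  exact le_sup' (fun A => ∑ a ∈ A, f a) (mem_filter.2 ⟨mem_powerset.2 hA, hP⟩)

lemma exists_Mx (U : Finset ℕ) (f : ℕ → ℝ) : ∃ A ⊆ U, Prim A ∧ Mx U f = ∑ a ∈ A, f a := by
  classical
  obtain ⟨A, hA, h⟩ := exists_mem_eq_sup' (s := U.powerset.filter Prim) ⟨∅, by simp [Prim]⟩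
    (fun A => ∑ a ∈ A, f a)
  rw [mem_filter, mem_powerset] at hA
  exact ⟨A, hA.1, hA.2, h⟩

lemma Mx_nonneg (U : Finset ℕ) (f : ℕ → ℝ) : 0 ≤ Mx U f := by
  have := le_Mx (empty_subset U) (by simp [Prim]) f
  simpa using this

/-- the largest weight of a primitive subset of `[n]` -/
noncomputable def P (σ : ℝ) (n : ℕ) : ℝ := Mx (Icc 1 n) (w σ)

open Classical in
/-- the window -/
noncomputable def win (N k : ℕ) : Finset ℕ :=
  (Icc 1 k).filter (fun s => s ∈ N.smoothNumbers ∧ k < N * s)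

/-- the largest weight of a primitive subset of the window -/
noncomputable def g (N : ℕ) (σ : ℝ) (k : ℕ) : ℝ := Mx (win N k) (w σ)

noncomputable def G (N : ℕ) (σ : ℝ) (n : ℕ) : ℝ := ∑ r ∈ rg N n, w σ r * g N σ (n / r)

lemma P_le (N : ℕ) (hN : 0 < N) (σ : ℝ) (n : ℕ) : P σ n ≤ W σ (n / N) + G N σ n := by
  classical
  obtain ⟨A, hA, hP, h⟩ := exists_Mx (Icc 1 n) (w σ)
  have hA' : ∀ a ∈ A, 0 < a ∧ a ≤ n := fun a ha => by
    have := hA ha
    rw [mem_Icc] at this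
    omega
  have h0 : P σ n = ∑ a ∈ A.filter (fun a => N * a ≤ n), w σ a +
      ∑ a ∈ A.filter (fun a => ¬ N * a ≤ n), w σ a := by
    rw [sum_filter_add_sum_filter_not]
    exact h
  rw [h0]
  apply add_le_add
  · unfold W
    refine sum_le_sum_of_subset_of_nonneg ?_ fun _ _ _ => w_nonneg _ _
    intro a ha
    rw [mem_filter] at ha
    rw [mem_Icc]
    refine ⟨(hA' a ha.1).1, ?_⟩
    rw [Nat.le_div_iff_mul_le hN, mul_comm]
    exact ha.2
  · have hA2 : ∀ a ∈ A.filter (fun a => ¬ N * a ≤ n), 0 < a ∧ a ≤ n := fun a ha =>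
      hA' a (mem_filter.1 ha).1
    rw [sum_fib N _ n hA2]
    unfold G
    refine sum_le_sum fun r hr => ?_
    unfold rg at hr
    rw [mem_filter, mem_Ioc] at hr
    refine mul_le_mul_of_nonneg_left ?_ (w_nonneg _ _)
    apply le_Mx
    · intro s hs
      rw [mem_fib (fun a ha => (hA2 a ha).1) hr.2, mem_filter] at hs
      unfold win
      rw [mem_filter, mem_Icc]
      obtain ⟨h1, h2, h3⟩ := hs
      have h4 := hA' _ h2
      refine ⟨⟨Nat.pos_of_mul_pos_right h4.1, ?_⟩, h1, ?_⟩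
      · rw [Nat.le_div_iff_mul_le hr.1.1]
        exact h4.2
      · rw [Nat.div_lt_iff_lt_mul hr.1.1, mul_assoc]
        omega
    · exact fib_prim (fun a ha => (hA2 a ha).1) (hP.subset (filter_subset _ _)) hr.1.1 hr.2

lemma G_le (N : ℕ) (σ : ℝ) (n : ℕ) : G N σ n ≤ P σ n := by
  classical
  choose B hB hBP hBs using fun r : ℕ => exists_Mx (win N (n / r)) (w σ)
  obtain ⟨A, hAdef⟩ : ∃ A, A = (rg N n).biUnion (fun r => (B r).image (· * r)) := ⟨_, rfl⟩
  have hmem : ∀ a, a ∈ A ↔ ∃ r ∈ rg N n, ∃ s ∈ B r, s * r = a := by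
    intro a
    rw [hAdef, mem_biUnion]
    simp only [mem_image]
  have hr' : ∀ r ∈ rg N n, 0 < r ∧ r ≤ n ∧ (Q N).Coprime r := by
    intro r hr
    unfold rg at hr
    rw [mem_filter, mem_Ioc] at hr
    exact ⟨hr.1.1, hr.1.2, hr.2⟩
  have hs' : ∀ r ∈ rg N n, ∀ s ∈ B r, 0 < s ∧ s * r ≤ n ∧ s ∈ N.smoothNumbers ∧ n < N * (s * r) := by
    intro r hr s hs
    have := hB r hs
    unfold win at this
    rw [mem_filter, mem_Icc] at this
    obtain ⟨⟨h1, h2⟩, h3, h4⟩ := this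
    refine ⟨h1, ?_, h3, ?_⟩
    · rwa [Nat.le_div_iff_mul_le (hr' r hr).1] at h2
    · rwa [Nat.div_lt_iff_lt_mul (hr' r hr).1, mul_assoc] at h4
  have hA' : ∀ a ∈ A, 0 < a ∧ a ≤ n := by
    intro a ha
    rw [hmem] at ha
    obtain ⟨r, hr, s, hs, rfl⟩ := ha
    exact ⟨Nat.mul_pos (hs' r hr s hs).1 (hr' r hr).1, (hs' r hr s hs).2.1⟩
  have hPA : Prim A := by
    intro a ha b hb hab
    rw [hmem] at ha hb
    obtain ⟨r, hr, s, hs, rfl⟩ := ha
    obtain ⟨r', hr2, s', hs2, rfl⟩ := hb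
    obtain ⟨h1, h2⟩ := dvd_dvd (hs' r hr s hs).2.2.1 (hr' r hr).2.2 (hs' r' hr2 s' hs2).2.2.1
      (hr' r' hr2).2.2 hab
    by_cases hrr : r = r'
    · subst hrr
      rw [hBP r s hs s' hs2 h1]
    · exfalso
      obtain ⟨c, rfl⟩ := h2
      have hc0 : 0 < c := Nat.pos_of_mul_pos_left (hr' _ hr2).1
      have hc1 : c ≠ 1 := by rintro rfl; simp at hrr
      have hcr : (Q N).Coprime c := Nat.Coprime.coprime_mul_left_right (hr' _ hr2).2.2
      have hNc := rough_ge hc0 hc1 hcr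
      have h5 : N * (s * r) ≤ s' * (r * c) := by
        calc N * (s * r) ≤ c * (s' * r) :=
              Nat.mul_le_mul hNc (Nat.mul_le_mul_right _ (Nat.le_of_dvd (hs' _ hr2 s' hs2).1 h1))
          _ = s' * (r * c) := by ring
      have h6 := (hs' r hr s hs).2.2.2
      have h7 := (hs' _ hr2 s' hs2).2.1
      omega
  have h1 : ∑ a ∈ A, w σ a ≤ P σ n := by
    apply le_Mx _ hPA
    intro a ha
    rw [mem_Icc]
    have := hA' a ha
    omega
  refine le_trans (le_of_eq ?_) h1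
  rw [sum_fib N A n hA']
  unfold G
  refine sum_congr rfl fun r hr => ?_
  congr 1
  have h2 : fib N A r = B r := by
    ext s
    rw [mem_fib (fun a ha => (hA' a ha).1) (hr' r hr).2.2, hmem]
    constructor
    · rintro ⟨h3, r', hr2, s', hs2, h4⟩
      obtain ⟨rfl, rfl⟩ := decomp_unique (hs' r' hr2 s' hs2).2.2.1 (hr' r' hr2).2.2 h3
        (hr' r hr).2.2 h4
      exact hs2
    · intro hs
      exact ⟨(hs' r hr s hs).2.2.1, r, hr, s, hs, rfl⟩
  rw [h2]
  exact hBs r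

end Pool.Agent.Q250.PS
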