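import Pool.Agent.Q250.PS.Decomp

set_option autoImplicit false

open Finset Filter Topology

namespace Pool.Agent.Q250.PS

lemma w_one_eq (a : ℕ) : w 1 a = 1 / (a : ℝ) := by
  unfold w
  rw [Real.rpow_neg_one, one_div]

/-- primitive sets of smooth numbers have small logarithmic weight -/
lemma smooth_small {β : ℝ} (hβ : 0 < β) : ∃ N : ℕ, 0 < N ∧ ∀ B : Finset ℕ, Prim B →
    (∀ b ∈ B, b ∈ N.smoothNumbers) → ∑ b ∈ B, w 1 b ≤ 2 * β * Z N := by
  obtain ⟨M, hM⟩ := choose_small hβ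
  obtain ⟨N, hN1, hN⟩ := ((Z_tendsto.eventually_ge_atTop (3 * 2 ^ M / β)).and
    (eventually_gt_atTop 0)).exists
  refine ⟨N, hN, fun B hP hB => ?_⟩
  have h1 := smooth_le B hP hβ.le hM N hB
  have h2 := V_le N
  rw [div_le_iff₀ hβ] at hN1
  have h3 : ∑ b ∈ B, w 1 b = ∑ b ∈ B, (1 : ℝ) / b := sum_congr rfl fun b _ => w_one_eq b
  rw [h3]
  have h4 : (2 : ℝ) ^ M * V N ≤ 2 ^ M * 3 := mul_le_mul_of_nonneg_left h2 (by positivity)
  nlinarith

lemma log_sum (x n : ℕ) (h : x < n) :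
    ∑ r ∈ Ioc x n, w 1 r ≤ 1 + Real.log ((n : ℝ) / ((x : ℝ) + 1)) := by
  induction n, (show x + 1 ≤ n from h) using Nat.le_induction with
  | base =>
    have h1 : Ioc x (x + 1) = {x + 1} := by
      ext y
      simp only [mem_Ioc, mem_singleton]
      omega
    rw [h1, sum_singleton, w_one_eq]
    push_cast
    rw [div_self (by positivity), Real.log_one, add_zero, div_le_one (by positivity)]
    have : (0 : ℝ) ≤ x := Nat.cast_nonneg _
    linarith
  | succ n hn ih =>
    have ih := ih hn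
    rw [← Finset.insert_Ioc_right_eq_Ioc_add_one (by omega), sum_insert (by simp), w_one_eq]
    have hn0 : (0 : ℝ) < n := by
      have : 0 < n := by omega
      exact_mod_cast this
    have hx : (0 : ℝ) < (x : ℝ) + 1 := by positivity
    have h2 := Real.one_sub_inv_le_log_of_pos (show (0 : ℝ) < ((n : ℝ) + 1) / n by positivity)
    have h3 : (1 : ℝ) - (((n : ℝ) + 1) / n)⁻¹ = 1 / ((n : ℝ) + 1) := by
      field_simp
      ring
    rw [h3, Real.log_div (by positivity) hn0.ne'] at h2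
    rw [Real.log_div hn0.ne' hx.ne'] at ih
    push_cast
    rw [Real.log_div (by positivity) hx.ne']
    linarith

lemma log_sum' (x n : ℕ) {K : ℝ} (hK : 1 ≤ K) (h : (n : ℝ) ≤ K * ((x : ℝ) + 1)) :
    ∑ r ∈ Ioc x n, w 1 r ≤ 1 + Real.log K := by
  rcases lt_or_ge x n with hx | hx
  · refine (log_sum x n hx).trans ?_
    have hx' : (0 : ℝ) < (x : ℝ) + 1 := by positivity
    have hn : (0 : ℝ) < n := by
      have : 0 < n := by omega
      exact_mod_cast this
    have : Real.log ((n : ℝ) / ((x : ℝ) + 1)) ≤ Real.log K := by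
      apply Real.log_le_log (by positivity)
      rw [div_le_iff₀ hx']
      exact h
    linarith
  · rw [Ioc_eq_empty (by omega), sum_empty]
    have := Real.log_nonneg hK
    linarith

/-- the tail of the sum over the smooth numbers -/
lemma smooth_tail (N : ℕ) {β : ℝ} (hβ : 0 < β) : ∃ Y : ℕ, 0 < Y ∧ ∀ T : Finset ℕ,
    (∀ s ∈ T, s ∈ N.smoothNumbers ∧ Y < s) → ∑ s ∈ T, w 1 s ≤ β := by
  classical
  have h1 : Summable ((N.smoothNumbers).indicator (fun k : ℕ => (k : ℝ)⁻¹)) :=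
    summable_subtype_iff_indicator.1 (smooth_hasSum N).1
  obtain ⟨F, hF⟩ := summable_iff_vanishing_norm.1 h1 β hβ
  refine ⟨F.sup id + 1, by omega, fun T hT => ?_⟩
  have hd : Disjoint T F := by
    rw [disjoint_left]
    intro x hx hxF
    have h2 := le_sup (f := id) hxF
    have h3 := (hT x hx).2
    simp only [id] at h2
    omega
  have h4 := hF T hd
  rw [Real.norm_eq_abs] at h4
  have h5 : ∑ s ∈ T, w 1 s = ∑ s ∈ T, (N.smoothNumbers).indicator (fun k : ℕ => (k : ℝ)⁻¹) s := by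
    refine sum_congr rfl fun s hs => ?_
    rw [Set.indicator_of_mem (hT s hs).1, w_one_eq, one_div]
  rw [h5]
  exact (le_abs_self _).trans h4.le

/-- **Local form of Behrend's theorem.** -/
lemma lemB {ε : ℝ} (hε : 0 < ε) : ∃ K₀ : ℕ, ∀ K : ℕ, K₀ ≤ K → ∃ n₀ : ℕ, ∀ n : ℕ, n₀ ≤ n →
    ∀ A : Finset ℕ, Prim A → (∀ a ∈ A, 0 < a ∧ a ≤ n ∧ n < K * a) →
      ∑ a ∈ A, w 1 a ≤ ε * Real.log K := by
  classical
  obtain ⟨β, hβdef⟩ : ∃ β, β = ε / 9 := ⟨_, rfl⟩
  have hβ : 0 < β := by rw [hβdef]; positivity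
  obtain ⟨N, hN, hsm⟩ := smooth_small hβ
  obtain ⟨Y, hY, htail⟩ := smooth_tail N hβ
  obtain ⟨K₁, hK₁⟩ := exists_nat_ge (Real.exp 1)
  refine ⟨max (max Y K₁) 1, fun K hK => ?_⟩
  have hKY : Y ≤ K := (le_max_left _ _).trans ((le_max_left _ _).trans hK)
  have hKK : K₁ ≤ K := (le_max_right _ _).trans ((le_max_left _ _).trans hK)
  have hK1 : 1 ≤ K := (le_max_right _ _).trans hK
  have hKr : (1 : ℝ) ≤ K := by exact_mod_cast hK1
  have hYr : (1 : ℝ) ≤ Y := by exact_mod_cast hY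
  have hlog1 : 1 ≤ Real.log K := by
    rw [Real.le_log_iff_exp_le (by linarith)]
    exact hK₁.trans (by exact_mod_cast hKK)
  have hlogY : Real.log Y ≤ Real.log K := Real.log_le_log (by linarith) (by exact_mod_cast hKY)
  obtain ⟨n₁, hn₁⟩ := exists_nat_ge (4 * Z N * Q N * (K * Y))
  refine ⟨n₁ + 1, fun n hn A hP hA => ?_⟩
  have hA' : ∀ a ∈ A, 0 < a ∧ a ≤ n := fun a ha => ⟨(hA a ha).1, (hA a ha).2.1⟩
  rw [sum_fib N A n hA' 1]
  have hrg : ∀ r ∈ rg N n, 0 < r ∧ r ≤ n ∧ (Q N).Coprime r := by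
    intro r hr
    unfold rg at hr
    rw [mem_filter, mem_Ioc] at hr
    exact ⟨hr.1.1, hr.1.2, hr.2⟩
  have hsplit : ∀ r ∈ rg N n, w 1 r * ∑ s ∈ fib N A r, w 1 s =
      w 1 r * ∑ s ∈ (fib N A r).filter (fun s => s ≤ Y), w 1 s +
        w 1 r * ∑ s ∈ (fib N A r).filter (fun s => ¬ s ≤ Y), w 1 s := by
    intro r _
    rw [← mul_add, sum_filter_add_sum_filter_not]
  rw [sum_congr rfl hsplit, sum_add_distrib]
  have hZ := Z_pos N
  -- part one
  have hpart1 : ∑ r ∈ rg N n, w 1 r * ∑ s ∈ (fib N A r).filter (fun s => s ≤ Y), w 1 s ≤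
      2 * β * (1 + Real.log (K * Y)) + β := by
    obtain ⟨x, hx⟩ : ∃ x, x = n / (K * Y) := ⟨_, rfl⟩
    have hKYpos : 0 < K * Y := Nat.mul_pos (by omega) hY
    have h1 : ∀ r ∈ rg N n, w 1 r * ∑ s ∈ (fib N A r).filter (fun s => s ≤ Y), w 1 s ≤
        if x < r then w 1 r * (2 * β * Z N) else 0 := by
      intro r hr
      obtain ⟨hr0, hrn, hrQ⟩ := hrg r hr
      split_ifs with hxr
      · refine mul_le_mul_of_nonneg_left ?_ (w_nonneg _ _)
        apply hsm
        · exact (fib_prim (fun a ha => (hA a ha).1) hP hr0 hrQ).subset (filter_subset _ _)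
        · intro s hs
          rw [mem_filter, mem_fib (fun a ha => (hA a ha).1) hrQ] at hs
          exact hs.1.1
      · have : (fib N A r).filter (fun s => s ≤ Y) = ∅ := by
          rw [filter_eq_empty_iff]
          intro s hs hsY
          rw [mem_fib (fun a ha => (hA a ha).1) hrQ] at hs
          have h2 := (hA _ hs.2).2.2
          have h3 : K * (s * r) ≤ K * (Y * r) :=
            Nat.mul_le_mul_left _ (Nat.mul_le_mul_right _ hsY)
          have h4 : n < r * (K * Y) := by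
            calc n < K * (s * r) := h2
              _ ≤ K * (Y * r) := h3
              _ = r * (K * Y) := by ring
          have h5 : x < r := by
            rw [hx]
            exact (Nat.div_lt_iff_lt_mul hKYpos).2 h4
          exact hxr h5
        rw [this, sum_empty, mul_zero]
    refine (sum_le_sum h1).trans ?_
    rw [← sum_filter, ← sum_mul]
    have h2 : (rg N n).filter (fun r => x < r) = (Ioc x n).filter (fun r => (Q N).Coprime r) := by
      ext r
      unfold rg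
      simp only [mem_filter, mem_Ioc]
      constructor
      · rintro ⟨⟨⟨_, b⟩, c⟩, d⟩; exact ⟨⟨d, b⟩, c⟩
      · rintro ⟨⟨a, b⟩, c⟩; exact ⟨⟨⟨by omega, b⟩, c⟩, a⟩
    rw [h2]
    have h3 := R_le N (zero_le_one' ℝ) x n
    unfold R at h3
    have hxr : (n : ℝ) ≤ (K * Y) * ((x : ℝ) + 1) := by
      have h5 : n < (x + 1) * (K * Y) := by
        rw [hx]
        rw [mul_comm]
        exact Nat.lt_mul_div_succ n hKYpos
      have : (n : ℝ) ≤ (((x + 1) * (K * Y) : ℕ) : ℝ) := by exact_mod_cast h5.le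
      push_cast at this
      linarith
    have h4 := log_sum' x n (K := (K : ℝ) * Y) (by nlinarith) hxr
    have h6 : 2 * (Q N : ℝ) * w 1 (x + 1) * (2 * β * Z N) ≤ β := by
      rw [w_one_eq]
      have hx1 : (0 : ℝ) < ((x + 1 : ℕ) : ℝ) := by positivity
      have h7 : 4 * Z N * Q N ≤ ((x + 1 : ℕ) : ℝ) := by
        have hKYr : (0 : ℝ) < (K : ℝ) * Y := by positivity
        have h8 : 4 * Z N * Q N * (K * Y) ≤ (K * Y) * ((x : ℝ) + 1) := by
          have h9 : (n₁ : ℝ) ≤ n := by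
            have : n₁ ≤ n := by omega
            exact_mod_cast this
          linarith
        push_cast
        nlinarith
      calc 2 * (Q N : ℝ) * (1 / ((x + 1 : ℕ) : ℝ)) * (2 * β * Z N) =
          (4 * Z N * Q N) / ((x + 1 : ℕ) : ℝ) * β := by ring
        _ ≤ 1 * β := by
            apply mul_le_mul_of_nonneg_right _ hβ.le
            rw [div_le_one hx1]
            exact h7
        _ = β := one_mul _
    have h9 := κ_mul_Z N
    have h10 := κ_pos N
    calc (∑ i ∈ Ioc x n with (Q N).Coprime i, w 1 i) * (2 * β * Z N) ≤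
        (κ N * ∑ r ∈ Ioc x n, w 1 r + 2 * Q N * w 1 (x + 1)) * (2 * β * Z N) :=
          mul_le_mul_of_nonneg_right h3 (by positivity)
      _ = 2 * β * (κ N * Z N) * (∑ r ∈ Ioc x n, w 1 r) +
          2 * (Q N : ℝ) * w 1 (x + 1) * (2 * β * Z N) := by ring
      _ ≤ 2 * β * (1 + Real.log (K * Y)) + β := by
          rw [h9, mul_one]
          exact add_le_add (mul_le_mul_of_nonneg_left h4 (by positivity)) h6
  -- part two
  have hpart2 : ∑ r ∈ rg N n, w 1 r * ∑ s ∈ (fib N A r).filter (fun s => ¬ s ≤ Y), w 1 s ≤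
      β * (1 + Real.log K) := by
    obtain ⟨S, hS⟩ : ∃ S, S = (Icc 1 n).filter (fun s => s ∈ N.smoothNumbers ∧ Y < s) := ⟨_, rfl⟩
    have h1 : ∀ r ∈ rg N n, w 1 r * ∑ s ∈ (fib N A r).filter (fun s => ¬ s ≤ Y), w 1 s ≤
        ∑ s ∈ S, if s * r ≤ n ∧ n < K * (s * r) then w 1 s * w 1 r else 0 := by
      intro r hr
      obtain ⟨hr0, hrn, hrQ⟩ := hrg r hr
      rw [mul_sum, ← sum_filter]
      have hsub : (fib N A r).filter (fun s => ¬ s ≤ Y) ⊆
          S.filter (fun s => s * r ≤ n ∧ n < K * (s * r)) := by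
        intro s hs
        rw [mem_filter, mem_fib (fun a ha => (hA a ha).1) hrQ] at hs
        obtain ⟨⟨h2, h3⟩, h4⟩ := hs
        have h5 := hA _ h3
        rw [mem_filter, hS, mem_filter, mem_Icc]
        have h6 : 0 < s := Nat.pos_of_mul_pos_right h5.1
        exact ⟨⟨⟨h6, (Nat.le_mul_of_pos_right s hr0).trans h5.2.1⟩, h2, by omega⟩, h5.2.1, h5.2.2⟩
      refine le_trans (le_of_eq (sum_congr rfl fun s _ => mul_comm _ _))
        (sum_le_sum_of_subset_of_nonneg hsub fun s _ _ => mul_nonneg (w_nonneg _ _) (w_nonneg _ _))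
    refine (sum_le_sum h1).trans ?_
    rw [sum_comm]
    have h2 : ∀ s ∈ S, ∑ r ∈ rg N n, (if s * r ≤ n ∧ n < K * (s * r) then w 1 s * w 1 r else 0) ≤
        w 1 s * (1 + Real.log K) := by
      intro s hs
      rw [hS, mem_filter, mem_Icc] at hs
      have hs0 : 0 < s := hs.1.1
      rw [← sum_filter, ← mul_sum]
      refine mul_le_mul_of_nonneg_left ?_ (w_nonneg _ _)
      have hKs : 0 < K * s := Nat.mul_pos (by omega) hs0
      have hsub : (rg N n).filter (fun r => s * r ≤ n ∧ n < K * (s * r)) ⊆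
          Ioc (n / (K * s)) (n / s) := by
        intro r hr
        rw [mem_filter] at hr
        rw [mem_Ioc, Nat.div_lt_iff_lt_mul hKs, Nat.le_div_iff_mul_le hs0]
        constructor
        · calc n < K * (s * r) := hr.2.2
            _ = r * (K * s) := by ring
        · rw [mul_comm]; exact hr.2.1
      refine (sum_le_sum_of_subset_of_nonneg hsub fun _ _ _ => w_nonneg _ _).trans ?_
      apply log_sum' _ _ hKr
      have h5 : n < (n / (K * s) + 1) * (K * s) := by
        rw [mul_comm]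
        exact Nat.lt_mul_div_succ n hKs
      have h6 : n / s ≤ K * (n / (K * s) + 1) := by
        have h7 : n / s < (n / (K * s) + 1) * K := by
          rw [Nat.div_lt_iff_lt_mul hs0, mul_assoc]
          exact h5
        rw [mul_comm]
        exact h7.le
      have : ((n / s : ℕ) : ℝ) ≤ ((K * (n / (K * s) + 1) : ℕ) : ℝ) := by exact_mod_cast h6
      push_cast at this
      exact this
    refine (sum_le_sum h2).trans ?_
    rw [← sum_mul]
    refine mul_le_mul_of_nonneg_right ?_ (by linarith)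
    apply htail
    intro s hs
    rw [hS, mem_filter] at hs
    exact hs.2
  have h7 : Real.log ((K : ℝ) * Y) = Real.log K + Real.log Y :=
    Real.log_mul (by positivity) (by positivity)
  rw [h7] at hpart1
  have h8 : 2 * β * (1 + (Real.log K + Real.log Y)) + β + β * (1 + Real.log K) ≤ 9 * β * Real.log K := by
    nlinarith
  have h9 : 9 * β = ε := by rw [hβdef]; ring
  rw [h9] at h8
  linarith

/-- the case `σ = 1` -/
lemma lemOne {ε : ℝ} (hε : 0 < ε) : ∃ n₀ : ℕ, ∀ n : ℕ, n₀ ≤ n → P 1 n ≤ ε * W 1 n := by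
  classical
  obtain ⟨β, hβdef⟩ : ∃ β, β = ε / 4 := ⟨_, rfl⟩
  have hβ : 0 < β := by rw [hβdef]; positivity
  obtain ⟨N, hN, hsm⟩ := smooth_small hβ
  obtain ⟨n₀, hn₀⟩ := eventually_atTop.1 (W_one_tendsto.eventually_ge_atTop (2 * Z N * Q N))
  refine ⟨n₀, fun n hn => ?_⟩
  have h1 := hn₀ n hn
  obtain ⟨A, hA, hP, h⟩ := exists_Mx (Icc 1 n) (w 1)
  have hA' : ∀ a ∈ A, 0 < a ∧ a ≤ n := fun a ha => by
    have := hA ha
    rw [mem_Icc] at this
    omega
  unfold P
  rw [h, sum_fib N A n hA' 1]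
  have h2 : ∑ r ∈ rg N n, w 1 r * ∑ s ∈ fib N A r, w 1 s ≤ ∑ r ∈ rg N n, w 1 r * (2 * β * Z N) := by
    refine sum_le_sum fun r hr => ?_
    unfold rg at hr
    rw [mem_filter, mem_Ioc] at hr
    refine mul_le_mul_of_nonneg_left ?_ (w_nonneg _ _)
    apply hsm
    · exact fib_prim (fun a ha => (hA' a ha).1) hP hr.1.1 hr.2
    · intro s hs
      rw [mem_fib (fun a ha => (hA' a ha).1) hr.2] at hs
      exact hs.1
  refine h2.trans ?_
  rw [← sum_mul]
  have h3 := (abs_le.1 (abs_R N (zero_le_one' ℝ) n)).2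
  have h4 : (∑ i ∈ rg N n, w 1 i) = R N 1 0 n := rfl
  rw [h4]
  have hZ := Z_pos N
  have h5 : R N 1 0 n ≤ κ N * W 1 n + 2 * Q N := by linarith
  calc R N 1 0 n * (2 * β * Z N) ≤ (κ N * W 1 n + 2 * Q N) * (2 * β * Z N) :=
        mul_le_mul_of_nonneg_right h5 (by positivity)
    _ = 2 * β * (κ N * Z N) * W 1 n + 2 * β * (2 * Z N * Q N) := by ring
    _ ≤ 2 * β * W 1 n + 2 * β * W 1 n := by
        rw [κ_mul_Z, mul_one]
        have : 2 * β * (2 * Z N * Q N) ≤ 2 * β * W 1 n := mul_le_mul_of_nonneg_left h1 (by positivity)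
        linarith
    _ = ε * W 1 n := by rw [hβdef]; ring

end Pool.Agent.Q250.PS
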