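import Pool.Agent.Q250.PS.LemA
import Pool.Agent.Q250.PS.LemB

set_option autoImplicit false

open Finset Filter Topology

namespace Pool.Agent.Q250.PS

lemma abel (c v : ℕ → ℝ) (m n : ℕ) (h : m ≤ n) :
    ∑ a ∈ Ioc m n, c a * v a = (∑ a ∈ Ioc 0 n, c a) * v n - (∑ a ∈ Ioc 0 m, c a) * v m +
      ∑ t ∈ Ico m n, (∑ a ∈ Ioc 0 t, c a) * (v t - v (t + 1)) := by
  induction n, h using Nat.le_induction with
  | base => simp
  | succ n hn ih =>
    rw [← Finset.insert_Ioc_right_eq_Ioc_add_one hn, sum_insert (by simp),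
      ← Finset.insert_Ioc_right_eq_Ioc_add_one (Nat.zero_le n), sum_insert (by simp),
      sum_Ico_succ_top hn, ih]
    ring

lemma P_lower {σ : ℝ} (h0 : 0 ≤ σ) {n : ℕ} (hn : 0 < n) : (n : ℝ) ^ (1 - σ) / 2 ≤ P σ n := by
  have hn' : (0 : ℝ) < n := by exact_mod_cast hn
  have h1 : ∑ a ∈ Ioc (n / 2) n, w σ a ≤ P σ n := by
    apply le_Mx
    · intro a ha
      rw [mem_Ioc] at ha
      rw [mem_Icc]
      omega
    · intro a ha b hb hab
      rw [mem_Ioc] at ha hb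
      obtain ⟨c, rfl⟩ := hab
      have hc : c = 1 := by
        have h2 : c < 2 := by
          by_contra hc
          have : a * 2 ≤ a * c := Nat.mul_le_mul_left _ (by omega)
          omega
        have h3 : c ≠ 0 := by rintro rfl; omega
        omega
      rw [hc, mul_one]
  refine le_trans ?_ h1
  have h2 : ∀ a ∈ Ioc (n / 2) n, w σ n ≤ w σ a := by
    intro a ha
    rw [mem_Ioc] at ha
    exact w_anti h0 (by omega) ha.2
  refine le_trans ?_ (card_nsmul_le_sum _ _ _ h2)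
  rw [Nat.card_Ioc, nsmul_eq_mul]
  have h3 : (n : ℝ) / 2 ≤ ((n - n / 2 : ℕ) : ℝ) := by
    rw [Nat.cast_sub (Nat.div_le_self _ _)]
    have : ((n / 2 : ℕ) : ℝ) ≤ (n : ℝ) / 2 := Nat.cast_div_le
    linarith
  have h4 : (n : ℝ) ^ (1 - σ) = n * w σ n := by
    unfold w
    rw [sub_eq_add_neg, Real.rpow_add hn', Real.rpow_one]
  rw [h4]
  have := w_nonneg σ n
  nlinarith

lemma log_lower (x n : ℕ) (hx : 0 < x) (h : x ≤ n) :
    Real.log ((n : ℝ) / x) ≤ ∑ t ∈ Ico x n, 1 / (t : ℝ) := by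
  have hx' : (0 : ℝ) < x := by exact_mod_cast hx
  induction n, h using Nat.le_induction with
  | base => simp [div_self hx'.ne']
  | succ n hn ih =>
    have hn' : (0 : ℝ) < n := by
      have : 0 < n := by omega
      exact_mod_cast this
    rw [sum_Ico_succ_top hn]
    have h2 := Real.log_le_sub_one_of_pos (show (0 : ℝ) < ((n : ℝ) + 1) / n by positivity)
    have h3 : ((n : ℝ) + 1) / n - 1 = 1 / (n : ℝ) := by
      field_simp
      ring
    rw [h3, Real.log_div (by positivity) hn'.ne'] at h2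
    rw [Real.log_div hn'.ne' hx'.ne'] at ih
    push_cast
    rw [Real.log_div (by positivity) hx'.ne']
    linarith

lemma quarter {t η : ℝ} (ht : 1 ≤ t) (h0 : 0 ≤ η) (h1 : η ≤ 1) :
    1 / 4 * t ^ (-(1 + η)) ≤ (t + 1) ^ (-(1 + η)) := by
  have ht0 : 0 < t := by linarith
  have h2 : (2 * t) ^ (-(1 + η)) ≤ (t + 1) ^ (-(1 + η)) :=
    Real.rpow_le_rpow_of_nonpos (by linarith) (by linarith) (by linarith)
  refine le_trans ?_ h2
  rw [Real.mul_rpow (by norm_num) ht0.le]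
  apply mul_le_mul_of_nonneg_right _ (Real.rpow_nonneg ht0.le _)
  have h3 : (2 : ℝ) ^ (-(2 : ℝ)) ≤ (2 : ℝ) ^ (-(1 + η)) :=
    Real.rpow_le_rpow_of_exponent_le (by norm_num) (by linarith)
  refine le_trans (le_of_eq ?_) h3
  rw [Real.rpow_neg (by norm_num)]
  norm_num

/-- comparison of the two normalised maxima, `σ₂ < 1` -/
lemma main_lt {σ₁ σ₂ : ℝ} (h0 : 0 ≤ σ₁) (h12 : σ₁ < σ₂) (h2 : σ₂ < 1) :
    ∃ n₀ : ℕ, ∀ n : ℕ, n₀ < n → P σ₂ n / W σ₂ n < P σ₁ n / W σ₁ n := by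
  classical
  obtain ⟨p₁, hp₁⟩ : ∃ p₁, p₁ = 1 - σ₁ := ⟨_, rfl⟩
  obtain ⟨p₂, hp₂⟩ : ∃ p₂, p₂ = 1 - σ₂ := ⟨_, rfl⟩
  obtain ⟨η, hη⟩ : ∃ η, η = σ₂ - σ₁ := ⟨_, rfl⟩
  have hp1pos : 0 < p₁ := by linarith
  have hp1le : p₁ ≤ 1 := by linarith
  have hp2pos : 0 < p₂ := by linarith
  have hηpos : 0 < η := by linarith
  have hηle : η ≤ 1 := by linarith
  -- the constant `K`
  obtain ⟨K₀, hK₀⟩ := lemB (show 0 < p₁ / 32 by positivity)
  obtain ⟨K₁, hK₁⟩ := exists_nat_ge (Real.exp (32 / p₁ * (1 + 1 / p₁)))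
  obtain ⟨K, hKdef⟩ : ∃ K, K = max (max K₀ K₁) 1 := ⟨_, rfl⟩
  have hKK0 : K₀ ≤ K := by rw [hKdef]; exact (le_max_left _ _).trans (le_max_left _ _)
  have hKK1 : K₁ ≤ K := by rw [hKdef]; exact (le_max_right _ _).trans (le_max_left _ _)
  have hK1 : 1 ≤ K := by rw [hKdef]; exact le_max_right _ _
  have hKr : (1 : ℝ) ≤ K := by exact_mod_cast hK1
  have hlogK : 32 / p₁ * (1 + 1 / p₁) ≤ Real.log K := by
    rw [Real.le_log_iff_exp_le (by linarith)]
    exact hK₁.trans (by exact_mod_cast hKK1)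
  obtain ⟨nB, hnB⟩ := hK₀ K hKK0
  -- the gap
  obtain ⟨γ, hγ⟩ : ∃ γ, γ = η / (4 * p₁) * (2 * (K : ℝ)) ^ (-p₂) * p₂ := ⟨_, rfl⟩
  have hγpos : 0 < γ := by
    rw [hγ]
    have : (0 : ℝ) < (2 * (K : ℝ)) ^ (-p₂) := Real.rpow_pos_of_pos (by linarith) _
    positivity
  obtain ⟨ε, hε⟩ : ∃ ε, ε = min (1 / 4) (γ / 8) := ⟨_, rfl⟩
  have hεpos : 0 < ε := by rw [hε]; positivity
  have hε4 : ε ≤ 1 / 4 := by rw [hε]; exact min_le_left _ _
  have hεγ : ε ≤ γ / 8 := by rw [hε]; exact min_le_right _ _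
  obtain ⟨L, nA, hnA⟩ := lemA h0 (show σ₁ < 1 by linarith) hεpos
  rw [← hp₁] at hnA
  obtain ⟨n₀, hn₀⟩ : ∃ n₀, n₀ = max nA 1 := ⟨_, rfl⟩
  have hn₀1 : 1 ≤ n₀ := by rw [hn₀]; exact le_max_right _ _
  have hn₀A : nA ≤ n₀ := by rw [hn₀]; exact le_max_left _ _
  have hL : 1 / 4 ≤ L := by
    have h3 := (abs_le.1 (hnA n₀ hn₀A)).2
    have h4 := P_lower h0 (show 0 < n₀ by omega)
    rw [← hp₁] at h4
    have h5 : (0 : ℝ) < (n₀ : ℝ) ^ p₁ := Real.rpow_pos_of_pos (by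
      have : 0 < n₀ := by omega
      exact_mod_cast this) _
    have h6 : 1 / 2 ≤ P σ₁ n₀ / (n₀ : ℝ) ^ p₁ := by
      rw [le_div_iff₀ h5]
      linarith
    linarith
  obtain ⟨U, hU⟩ : ∃ U, U = L + ε := ⟨_, rfl⟩
  have hU4 : 1 / 4 ≤ U := by linarith
  have hPU : ∀ t : ℕ, n₀ ≤ t → P σ₁ t ≤ U * (t : ℝ) ^ p₁ := by
    intro t ht
    have h3 := (abs_le.1 (hnA t (hn₀A.trans ht))).2
    have h5 : (0 : ℝ) < (t : ℝ) ^ p₁ := Real.rpow_pos_of_pos (by
      have : 0 < t := by omega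
      exact_mod_cast this) _
    have h6 : P σ₁ t / (t : ℝ) ^ p₁ ≤ U := by linarith
    rwa [div_le_iff₀ h5] at h6
  have hPL : ∀ t : ℕ, n₀ ≤ t → (L - ε) * (t : ℝ) ^ p₁ ≤ P σ₁ t := by
    intro t ht
    have h3 := (abs_le.1 (hnA t (hn₀A.trans ht))).1
    have h5 : (0 : ℝ) < (t : ℝ) ^ p₁ := Real.rpow_pos_of_pos (by
      have : 0 < t := by omega
      exact_mod_cast this) _
    have h6 : L - ε ≤ P σ₁ t / (t : ℝ) ^ p₁ := by linarith
    rwa [le_div_iff₀ h5] at h6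
  obtain ⟨C₀, hC₀⟩ : ∃ C₀, C₀ = W σ₁ n₀ := ⟨_, rfl⟩
  have hC₀nn : 0 ≤ C₀ := by rw [hC₀]; exact W_nonneg _ _
  -- threshold for `n`
  obtain ⟨n₁, hn₁⟩ := eventually_atTop.1 ((W_tendsto (show 0 ≤ σ₂ by linarith) h2).eventually_gt_atTop
    (2 * (U + C₀) / γ))
  refine ⟨max n₁ (max nB (K * (n₀ + 1))), fun n hn => ?_⟩
  have hnn1 : n₁ ≤ n := le_trans (le_max_left _ _) hn.le
  have hnnB : nB ≤ n := le_trans ((le_max_left _ _).trans (le_max_right _ _)) hn.le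
  have hnK : K * (n₀ + 1) ≤ n := le_trans ((le_max_right _ _).trans (le_max_right _ _)) hn.le
  obtain ⟨x, hx⟩ : ∃ x, x = n / K := ⟨_, rfl⟩
  have hxn₀ : n₀ + 1 ≤ x := by
    rw [hx, Nat.le_div_iff_mul_le (by omega), mul_comm]
    exact hnK
  have hxn : x ≤ n := by rw [hx]; exact Nat.div_le_self _ _
  have hx1 : 1 ≤ x := by omega
  have hn1 : 1 ≤ n := by omega
  have hnr : (0 : ℝ) < n := by exact_mod_cast hn1
  have hxr : (0 : ℝ) < x := by exact_mod_cast hx1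
  obtain ⟨A, hA, hPr, hPA⟩ := exists_Mx (Icc 1 n) (w σ₂)
  have hA' : ∀ a ∈ A, 0 < a ∧ a ≤ n := fun a ha => by
    have := hA ha
    rw [mem_Icc] at this
    omega
  obtain ⟨c, hc⟩ : ∃ c : ℕ → ℝ, c = fun a => if a ∈ A then w σ₁ a else 0 := ⟨_, rfl⟩
  obtain ⟨S, hS⟩ : ∃ S : ℕ → ℝ, S = fun t => ∑ a ∈ Ioc 0 t, c a := ⟨_, rfl⟩
  have hS0 : S 0 = 0 := by rw [hS]; simp
  have hSP : ∀ t, t ≤ n → S t ≤ P σ₁ t := by
    intro t ht
    rw [hS, hc]
    simp only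
    rw [← sum_filter]
    apply le_Mx
    · intro a ha
      rw [mem_filter, mem_Ioc] at ha
      rw [mem_Icc]
      omega
    · apply hPr.subset
      intro a ha
      exact (mem_filter.1 ha).2
  have hSW : ∀ t, S t ≤ W σ₁ t := by
    intro t
    rw [hS, hc]
    unfold W
    refine sum_le_sum fun a _ => ?_
    split_ifs
    · exact le_rfl
    · exact w_nonneg _ _
  have hSnn : ∀ t, 0 ≤ S t := by
    intro t
    rw [hS, hc]
    refine sum_nonneg fun a _ => ?_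
    split_ifs
    · exact w_nonneg _ _
    · exact le_rfl
  -- Abel summation for the weight `σ₂`
  have hab1 := abel c (fun t => (t : ℝ) ^ (-η)) 0 n (Nat.zero_le n)
  have hsum2 : ∑ a ∈ Ioc 0 n, c a * (a : ℝ) ^ (-η) = P σ₂ n := by
    unfold P
    rw [hPA, hc]
    have h3 : ∀ a ∈ Ioc 0 n, (if a ∈ A then w σ₁ a else 0) * (a : ℝ) ^ (-η) =
        if a ∈ A then w σ₂ a else 0 := by
      intro a ha
      rw [mem_Ioc] at ha
      split_ifs
      · unfold w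
        rw [← Real.rpow_add (by exact_mod_cast ha.1)]
        congr 1
        rw [hη]; ring
      · simp
    rw [sum_congr rfl h3, ← sum_filter]
    congr 1
    ext a
    rw [mem_filter, mem_Ioc]
    exact ⟨fun h => h.2, fun h => ⟨hA' a h, h⟩⟩
  rw [hsum2] at hab1
  have hSeq : ∀ t, ∑ a ∈ Ioc 0 t, c a = S t := fun t => by rw [hS]
  simp only [hSeq, hS0, zero_mul, sub_zero] at hab1
  -- Abel summation for the function `t ^ p₁`
  obtain ⟨c', hc'⟩ : ∃ c' : ℕ → ℝ, c' = fun (a : ℕ) => (a : ℝ) ^ p₁ - ((a : ℝ) - 1) ^ p₁ := ⟨_, rfl⟩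
  have hc'sum : ∀ t : ℕ, ∑ a ∈ Ioc 0 t, c' a = (t : ℝ) ^ p₁ := by
    intro t
    induction t with
    | zero => simp [Real.zero_rpow hp1pos.ne']
    | succ t ih =>
      rw [← Finset.insert_Ioc_right_eq_Ioc_add_one (Nat.zero_le t), sum_insert (by simp), ih, hc']
      simp
  have hab2 := abel c' (fun t => (t : ℝ) ^ (-η)) 0 n (Nat.zero_le n)
  simp only [hc'sum] at hab2
  have h00 : ((0 : ℕ) : ℝ) ^ p₁ = 0 := by rw [Nat.cast_zero, Real.zero_rpow hp1pos.ne']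
  rw [h00, zero_mul, sub_zero] at hab2
  have hbr : ∑ a ∈ Ioc 0 n, c' a * (a : ℝ) ^ (-η) ≤ 1 + p₁ * W σ₂ n := by
    have h3 : Ioc 0 n = insert 1 (Ioc 1 n) := by
      ext a
      simp only [mem_insert, mem_Ioc]
      omega
    rw [h3, sum_insert (by simp)]
    have h4 : c' 1 * ((1 : ℕ) : ℝ) ^ (-η) = 1 := by
      rw [hc']
      simp [Real.zero_rpow hp1pos.ne']
    rw [h4]
    have h5 : ∑ a ∈ Ioc 1 n, c' a * (a : ℝ) ^ (-η) ≤ ∑ a ∈ Ioc 1 n, p₁ * w σ₂ (a - 1) := by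
      refine sum_le_sum fun a ha => ?_
      rw [mem_Ioc] at ha
      obtain ⟨b, rfl⟩ : ∃ b, a = b + 1 := ⟨a - 1, by omega⟩
      have hb : (0 : ℝ) < b := by
        have : 0 < b := by omega
        exact_mod_cast this
      have h6 := succ_sub_le hb hp1pos.le hp1le
      rw [hc']
      simp only [Nat.add_sub_cancel]
      push_cast
      rw [add_sub_cancel_right]
      have h7 : ((b : ℝ) + 1) ^ (-η) ≤ (b : ℝ) ^ (-η) :=
        Real.rpow_le_rpow_of_nonpos hb (by linarith) (by linarith)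
      have h8 : 0 ≤ ((b : ℝ) + 1) ^ (-η) := Real.rpow_nonneg (by linarith) _
      calc (((b : ℝ) + 1) ^ p₁ - (b : ℝ) ^ p₁) * ((b : ℝ) + 1) ^ (-η) ≤
          (p₁ * (b : ℝ) ^ (p₁ - 1)) * (b : ℝ) ^ (-η) := by
            apply mul_le_mul h6 h7 h8
            have := Real.rpow_nonneg hb.le (p₁ - 1)
            positivity
        _ = p₁ * w σ₂ b := by
            unfold w
            rw [mul_assoc, ← Real.rpow_add hb]
            congr 2
            rw [hp₁, hη]; ring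
    have h6 : ∑ a ∈ Ioc 1 n, p₁ * w σ₂ (a - 1) ≤ p₁ * W σ₂ n := by
      rw [← mul_sum]
      apply mul_le_mul_of_nonneg_left _ hp1pos.le
      have h7 : ∑ a ∈ Ioc 1 n, w σ₂ (a - 1) = W σ₂ (n - 1) := by
        unfold W
        refine sum_nbij' (fun a => a - 1) (fun a => a + 1) ?_ ?_ ?_ ?_ ?_
        · intro a ha
          simp only [mem_Ioc, mem_Icc] at ha ⊢
          omega
        · intro a ha
          simp only [mem_Ioc, mem_Icc] at ha ⊢
          omega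
        · intro a ha
          simp only [mem_Ioc] at ha
          omega
        · intro a _
          simp
        · intro a _
          rfl
      rw [h7]
      exact W_mono _ (by omega)
    linarith
  -- the deficits
  obtain ⟨d, hd⟩ : ∃ d : ℕ → ℝ, d = fun (t : ℕ) => U * (t : ℝ) ^ p₁ - S t := ⟨_, rfl⟩
  obtain ⟨Δ, hΔ⟩ : ∃ Δ : ℕ → ℝ, Δ = fun (t : ℕ) => (t : ℝ) ^ (-η) - ((t + 1 : ℕ) : ℝ) ^ (-η) := ⟨_, rfl⟩
  obtain ⟨Δ', hΔ'⟩ : ∃ Δ' : ℕ → ℝ, Δ' = fun (t : ℕ) => (t : ℝ) ^ (-p₁) - ((t + 1 : ℕ) : ℝ) ^ (-p₁) :=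
    ⟨_, rfl⟩
  have hdnn : ∀ t, n₀ ≤ t → t ≤ n → 0 ≤ d t := by
    intro t ht ht'
    rw [hd]
    have := (hSP t ht').trans (hPU t ht)
    simp only
    linarith
  have hS2 : P σ₂ n ≤ U * (1 + p₁ * W σ₂ n) - ∑ t ∈ Ico 0 n, d t * Δ t := by
    have h3 : ∑ t ∈ Ico 0 n, d t * Δ t = U * (∑ t ∈ Ico 0 n, (t : ℝ) ^ p₁ * Δ t) -
        ∑ t ∈ Ico 0 n, S t * Δ t := by
      rw [mul_sum, ← sum_sub_distrib]
      refine sum_congr rfl fun t _ => ?_
      rw [hd]; ring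
    have h4 : 0 ≤ d n * (n : ℝ) ^ (-η) :=
      mul_nonneg (hdnn n (by omega) le_rfl) (Real.rpow_nonneg hnr.le _)
    rw [hd] at h4
    simp only at h4
    have h5 : ∑ t ∈ Ico 0 n, S t * ((t : ℝ) ^ (-η) - ((t + 1 : ℕ) : ℝ) ^ (-η)) =
        ∑ t ∈ Ico 0 n, S t * Δ t := by rw [hΔ]
    have h6 : ∑ t ∈ Ico 0 n, (t : ℝ) ^ p₁ * ((t : ℝ) ^ (-η) - ((t + 1 : ℕ) : ℝ) ^ (-η)) =
        ∑ t ∈ Ico 0 n, (t : ℝ) ^ p₁ * Δ t := by rw [hΔ]
    rw [h5] at hab1
    rw [h6] at hab2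
    rw [hab2] at hbr
    have h7 := mul_le_mul_of_nonneg_left hbr (show 0 ≤ U by linarith)
    rw [hab1, h3]
    have e1 : (U * (n : ℝ) ^ p₁ - S n) * (n : ℝ) ^ (-η) =
        U * ((n : ℝ) ^ p₁ * (n : ℝ) ^ (-η)) - S n * (n : ℝ) ^ (-η) := by ring
    rw [e1] at h4
    rw [mul_add] at h7
    linarith
  have hΔnn : ∀ t, 1 ≤ t → 0 ≤ Δ t := by
    intro t ht
    rw [hΔ]
    have : ((t + 1 : ℕ) : ℝ) ^ (-η) ≤ (t : ℝ) ^ (-η) :=
      Real.rpow_le_rpow_of_nonpos (by exact_mod_cast ht) (by push_cast; linarith) (by linarith)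
    simp only
    linarith
  have hlow : -C₀ + ∑ t ∈ Ico x n, d t * Δ t ≤ ∑ t ∈ Ico 0 n, d t * Δ t := by
    rw [← sum_Ico_consecutive _ (Nat.zero_le x) hxn, ← sum_Ico_consecutive _ (Nat.zero_le 1) hx1,
      ← sum_Ico_consecutive _ hn₀1 (show n₀ ≤ x by omega)]
    have h3 : ∑ t ∈ Ico 0 1, d t * Δ t = 0 := by
      have : Ico 0 1 = {0} := by decide
      rw [this, sum_singleton, hd]
      simp only [hS0, Nat.cast_zero, Real.zero_rpow hp1pos.ne', mul_zero, sub_zero, zero_mul]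
    have h4 : 0 ≤ ∑ t ∈ Ico n₀ x, d t * Δ t := by
      refine sum_nonneg fun t ht => ?_
      rw [mem_Ico] at ht
      exact mul_nonneg (hdnn t ht.1 (by omega)) (hΔnn t (by omega))
    have h5 : -C₀ ≤ ∑ t ∈ Ico 1 n₀, d t * Δ t := by
      have h6 : ∀ t ∈ Ico 1 n₀, -C₀ * Δ t ≤ d t * Δ t := by
        intro t ht
        rw [mem_Ico] at ht
        refine mul_le_mul_of_nonneg_right ?_ (hΔnn t ht.1)
        rw [hd, hC₀]
        have h7 := (hSW t).trans (W_mono σ₁ ht.2.le)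
        have h8 : 0 ≤ U * (t : ℝ) ^ p₁ :=
          mul_nonneg (by linarith) (Real.rpow_nonneg (Nat.cast_nonneg _) _)
        simp only
        linarith
      refine le_trans ?_ (sum_le_sum h6)
      rw [← mul_sum]
      have h7 : ∀ m : ℕ, 1 ≤ m → ∑ t ∈ Ico 1 m, Δ t = 1 - (m : ℝ) ^ (-η) := by
        intro m hm
        induction m, hm using Nat.le_induction with
        | base => simp
        | succ m hm ih =>
          rw [sum_Ico_succ_top hm, ih, hΔ]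
          ring
      rw [h7 n₀ hn₀1]
      have h8 : 0 ≤ (n₀ : ℝ) ^ (-η) := Real.rpow_nonneg (Nat.cast_nonneg _) _
      nlinarith
    linarith
  -- comparison of the two kernels
  obtain ⟨ρ, hρ⟩ : ∃ ρ, ρ = η / (4 * p₁) * (x : ℝ) ^ p₂ := ⟨_, rfl⟩
  have hρnn : 0 ≤ ρ := by
    rw [hρ]
    have := Real.rpow_nonneg hxr.le p₂
    positivity
  have hker : ∀ t ∈ Ico x n, ρ * (d t * Δ' t) ≤ d t * Δ t := by
    intro t ht
    rw [mem_Ico] at ht
    have ht1 : (1 : ℝ) ≤ t := by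
      have : 1 ≤ t := by omega
      exact_mod_cast this
    have ht0 : (0 : ℝ) < t := by linarith
    have h3 := le_neg_sub ht0 hηpos.le hηle
    have h4 := neg_sub_le ht0 hp1pos.le hp1le
    have h5 := quarter ht1 hηpos.le hηle
    have h6 : (x : ℝ) ^ p₂ ≤ (t : ℝ) ^ p₂ :=
      Real.rpow_le_rpow hxr.le (by exact_mod_cast ht.1) hp2pos.le
    have h7 : (t : ℝ) ^ p₂ * (t : ℝ) ^ (-(1 + p₁)) = (t : ℝ) ^ (-(1 + η)) := by
      rw [← Real.rpow_add ht0]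
      congr 1
      rw [hp₁, hp₂, hη]; ring
    have h8 : ρ * Δ' t ≤ Δ t := by
      rw [hΔ, hΔ', hρ]
      push_cast
      have h9 : 0 ≤ (t : ℝ) ^ (-(1 + p₁)) := Real.rpow_nonneg ht0.le _
      have h10 : 0 ≤ (x : ℝ) ^ p₂ := Real.rpow_nonneg hxr.le _
      calc η / (4 * p₁) * (x : ℝ) ^ p₂ * ((t : ℝ) ^ (-p₁) - ((t : ℝ) + 1) ^ (-p₁)) ≤
          η / (4 * p₁) * (x : ℝ) ^ p₂ * (p₁ * (t : ℝ) ^ (-(1 + p₁))) :=
            mul_le_mul_of_nonneg_left h4 (by positivity)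
        _ = η * (1 / 4 * ((x : ℝ) ^ p₂ * (t : ℝ) ^ (-(1 + p₁)))) := by field_simp
        _ ≤ η * (1 / 4 * ((t : ℝ) ^ p₂ * (t : ℝ) ^ (-(1 + p₁)))) := by
            apply mul_le_mul_of_nonneg_left _ hηpos.le
            apply mul_le_mul_of_nonneg_left _ (by norm_num)
            exact mul_le_mul_of_nonneg_right h6 h9
        _ = η * (1 / 4 * (t : ℝ) ^ (-(1 + η))) := by rw [h7]
        _ ≤ η * ((t : ℝ) + 1) ^ (-(1 + η)) := mul_le_mul_of_nonneg_left h5 hηpos.le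
        _ ≤ _ := h3
    have h9 := mul_le_mul_of_nonneg_left h8 (hdnn t (by omega) ht.2.le)
    calc ρ * (d t * Δ' t) = d t * (ρ * Δ' t) := by ring
      _ ≤ _ := h9
  -- the logarithmic sum
  have hab3 := abel c (fun t => (t : ℝ) ^ (-p₁)) x n hxn
  simp only [hSeq] at hab3
  have hsum3 : ∑ a ∈ Ioc x n, c a * (a : ℝ) ^ (-p₁) ≤ p₁ / 32 * Real.log K := by
    have h3 : ∀ a ∈ Ioc x n, c a * (a : ℝ) ^ (-p₁) = if a ∈ A then w 1 a else 0 := by
      intro a ha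
      rw [mem_Ioc] at ha
      rw [hc]
      simp only
      split_ifs
      · unfold w
        rw [← Real.rpow_add (by
          have : 0 < a := by omega
          exact_mod_cast this)]
        congr 1
        rw [hp₁]; ring
      · simp
    rw [sum_congr rfl h3, ← sum_filter]
    apply hnB n hnnB
    · apply hPr.subset
      intro a ha
      exact (mem_filter.1 ha).2
    · intro a ha
      rw [mem_filter, mem_Ioc] at ha
      refine ⟨by omega, ha.1.2, ?_⟩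
      have h4 := Nat.lt_mul_div_succ n (show 0 < K by omega)
      rw [← hx] at h4
      exact lt_of_lt_of_le h4 (Nat.mul_le_mul_left _ (by omega))
  have hgap : 1 ≤ ∑ t ∈ Ico x n, d t * Δ' t := by
    have h3 : ∑ t ∈ Ico x n, d t * Δ' t = U * (∑ t ∈ Ico x n, (t : ℝ) ^ p₁ * Δ' t) -
        ∑ t ∈ Ico x n, S t * Δ' t := by
      rw [mul_sum, ← sum_sub_distrib]
      refine sum_congr rfl fun t _ => ?_
      rw [hd]; ring
    have h4 : ∑ t ∈ Ico x n, S t * ((t : ℝ) ^ (-p₁) - ((t + 1 : ℕ) : ℝ) ^ (-p₁)) =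
        ∑ t ∈ Ico x n, S t * Δ' t := by rw [hΔ']
    rw [h4] at hab3
    have h5 : S x * (x : ℝ) ^ (-p₁) ≤ 1 / p₁ := by
      have h6 := (hSW x).trans (W_upper h0 (by linarith) x)
      rw [← hp₁] at h6
      have h7 : (0 : ℝ) < (x : ℝ) ^ p₁ := Real.rpow_pos_of_pos hxr _
      rw [Real.rpow_neg hxr.le]
      calc S x * ((x : ℝ) ^ p₁)⁻¹ ≤ ((x : ℝ) ^ p₁ / p₁) * ((x : ℝ) ^ p₁)⁻¹ :=
            mul_le_mul_of_nonneg_right h6 (by positivity)
        _ = 1 / p₁ := by field_simp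
    have h6 : 0 ≤ S n * (n : ℝ) ^ (-p₁) := mul_nonneg (hSnn n) (Real.rpow_nonneg hnr.le _)
    have h7 : ∑ t ∈ Ico x n, S t * Δ' t ≤ p₁ / 32 * Real.log K + 1 / p₁ := by linarith
    have h8 : p₁ / 4 * Real.log K ≤ ∑ t ∈ Ico x n, (t : ℝ) ^ p₁ * Δ' t := by
      have h9 : ∀ t ∈ Ico x n, p₁ / 4 * (1 / (t : ℝ)) ≤ (t : ℝ) ^ p₁ * Δ' t := by
        intro t ht
        rw [mem_Ico] at ht
        have ht1 : (1 : ℝ) ≤ t := by
          have : 1 ≤ t := by omega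
          exact_mod_cast this
        have ht0 : (0 : ℝ) < t := by linarith
        have h10 := le_neg_sub ht0 hp1pos.le hp1le
        have h11 := quarter ht1 hp1pos.le hp1le
        have h12 : (t : ℝ) ^ p₁ * (t : ℝ) ^ (-(1 + p₁)) = 1 / t := by
          rw [← Real.rpow_add ht0, one_div, ← Real.rpow_neg_one]
          congr 1
          ring
        have h13 : 0 ≤ (t : ℝ) ^ p₁ := Real.rpow_nonneg ht0.le _
        rw [hΔ']
        push_cast
        calc p₁ / 4 * (1 / (t : ℝ)) = (t : ℝ) ^ p₁ * (p₁ * (1 / 4 * (t : ℝ) ^ (-(1 + p₁)))) := by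
              rw [← h12]; ring
          _ ≤ (t : ℝ) ^ p₁ * (p₁ * ((t : ℝ) + 1) ^ (-(1 + p₁))) :=
              mul_le_mul_of_nonneg_left (mul_le_mul_of_nonneg_left h11 hp1pos.le) h13
          _ ≤ _ := mul_le_mul_of_nonneg_left h10 h13
      refine le_trans ?_ (sum_le_sum h9)
      rw [← mul_sum]
      apply mul_le_mul_of_nonneg_left _ (by positivity)
      refine le_trans ?_ (log_lower x n (by omega) hxn)
      apply Real.log_le_log (by linarith)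
      rw [le_div_iff₀ hxr]
      have : K * x ≤ n := by rw [hx]; exact Nat.mul_div_le n K
      exact_mod_cast this
    have h9 : 1 / 4 * (p₁ / 4 * Real.log K) ≤ U * (∑ t ∈ Ico x n, (t : ℝ) ^ p₁ * Δ' t) := by
      have hlog : 0 ≤ Real.log K := Real.log_nonneg hKr
      exact mul_le_mul hU4 h8 (by positivity) (by linarith)
    have h10 : p₁ / 32 * (32 / p₁ * (1 + 1 / p₁)) ≤ p₁ / 32 * Real.log K :=
      mul_le_mul_of_nonneg_left hlogK (by positivity)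
    have h11 : p₁ / 32 * (32 / p₁ * (1 + 1 / p₁)) = 1 + 1 / p₁ := by
      field_simp
    rw [h11] at h10
    rw [h3]
    linarith
  have hgap2 : γ * W σ₂ n ≤ ∑ t ∈ Ico x n, d t * Δ t := by
    have h3 : ρ ≤ ∑ t ∈ Ico x n, d t * Δ t := by
      have h4 := sum_le_sum hker
      rw [← mul_sum] at h4
      have h5 := mul_le_mul_of_nonneg_left hgap hρnn
      rw [mul_one] at h5
      exact h5.trans h4
    refine le_trans ?_ h3
    rw [hγ, hρ]
    have h4 := W_upper (show 0 ≤ σ₂ by linarith) h2 n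
    rw [← hp₂] at h4
    have h5 : (2 * (K : ℝ)) ^ (-p₂) * (n : ℝ) ^ p₂ ≤ (x : ℝ) ^ p₂ := by
      rw [Real.rpow_neg (by positivity), ← Real.inv_rpow (by positivity),
        ← Real.mul_rpow (by positivity) hnr.le]
      apply Real.rpow_le_rpow (by positivity) _ hp2pos.le
      rw [inv_mul_le_iff₀ (by positivity)]
      have h6 := Nat.lt_mul_div_succ n (show 0 < K by omega)
      rw [← hx] at h6
      have h7 : n ≤ 2 * K * x := by
        calc n ≤ K * (x + 1) := h6.le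
          _ ≤ K * (2 * x) := Nat.mul_le_mul_left _ (by omega)
          _ = 2 * K * x := by ring
      exact_mod_cast h7
    have h6 : (0 : ℝ) < (2 * (K : ℝ)) ^ (-p₂) := Real.rpow_pos_of_pos (by positivity) _
    calc η / (4 * p₁) * (2 * (K : ℝ)) ^ (-p₂) * p₂ * W σ₂ n ≤
        η / (4 * p₁) * (2 * (K : ℝ)) ^ (-p₂) * p₂ * ((n : ℝ) ^ p₂ / p₂) :=
          mul_le_mul_of_nonneg_left h4 (by positivity)
      _ = η / (4 * p₁) * ((2 * (K : ℝ)) ^ (-p₂) * (n : ℝ) ^ p₂) := by field_simp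
      _ ≤ _ := mul_le_mul_of_nonneg_left h5 (by positivity)
  -- conclusion
  have hW2 : 2 * (U + C₀) / γ < W σ₂ n := hn₁ n hnn1
  have hW2pos : 0 < W σ₂ n := lt_of_le_of_lt (by positivity) hW2
  have hW1pos : 0 < W σ₁ n := by
    have := W_mono σ₁ hn1
    have h3 : W σ₁ 1 = 1 := by simp [W, w_one]
    linarith
  have hfin1 : P σ₂ n / W σ₂ n < U * p₁ - γ / 2 := by
    rw [div_lt_iff₀ hW2pos]
    rw [div_lt_iff₀ hγpos] at hW2
    have e1 : U * (1 + p₁ * W σ₂ n) = U + U * p₁ * W σ₂ n := by ring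
    have e2 : (U * p₁ - γ / 2) * W σ₂ n = U * p₁ * W σ₂ n - γ * W σ₂ n / 2 := by ring
    rw [e2]
    rw [e1] at hS2
    have e3 : W σ₂ n * γ = γ * W σ₂ n := mul_comm _ _
    rw [e3] at hW2
    linarith
  have hfin2 : (L - ε) * p₁ ≤ P σ₁ n / W σ₁ n := by
    rw [le_div_iff₀ hW1pos]
    have h3 := hPL n (by omega)
    have h4 := W_upper h0 (show σ₁ < 1 by linarith) n
    rw [← hp₁, le_div_iff₀ hp1pos] at h4
    have h5 : 0 ≤ L - ε := by linarith
    calc (L - ε) * p₁ * W σ₁ n = (L - ε) * (W σ₁ n * p₁) := by ring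
      _ ≤ (L - ε) * (n : ℝ) ^ p₁ := mul_le_mul_of_nonneg_left h4 h5
      _ ≤ _ := h3
  have : U * p₁ - γ / 2 ≤ (L - ε) * p₁ := by
    rw [hU]
    have e1 := mul_le_mul_of_nonneg_left hp1le (show 0 ≤ 2 * ε by linarith)
    have e2 : (L + ε) * p₁ = (L - ε) * p₁ + 2 * ε * p₁ := by ring
    rw [e2]
    linarith
  linarith

lemma main_one {σ₁ : ℝ} (h0 : 0 ≤ σ₁) (h1 : σ₁ < 1) :
    ∃ n₀ : ℕ, ∀ n : ℕ, n₀ < n → P 1 n / W 1 n < P σ₁ n / W σ₁ n := by
  have hp : 0 < 1 - σ₁ := by linarith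
  obtain ⟨n₀, hn₀⟩ := lemOne (show 0 < (1 - σ₁) / 4 by positivity)
  refine ⟨n₀, fun n hn => ?_⟩
  have hn1 : 1 ≤ n := by omega
  have hWpos : ∀ σ : ℝ, 0 < W σ n := by
    intro σ
    have := W_mono σ hn1
    have h3 : W σ 1 = 1 := by simp [W, w_one]
    linarith
  have h2 : P 1 n / W 1 n ≤ (1 - σ₁) / 4 := by
    rw [div_le_iff₀ (hWpos 1)]
    exact hn₀ n hn.le
  have h3 : (1 - σ₁) / 2 ≤ P σ₁ n / W σ₁ n := by
    rw [le_div_iff₀ (hWpos σ₁)]
    have h4 := P_lower h0 (show 0 < n by omega)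
    have h5 := W_upper h0 h1 n
    rw [le_div_iff₀ hp] at h5
    linarith
  linarith

end Pool.Agent.Q250.PS
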