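import Pool.Agent.Q250.PS.Decomp

set_option autoImplicit false

open Finset Filter Topology

namespace Pool.Agent.Q250.PS

noncomputable def h (N : ℕ) (σ : ℝ) (k : ℕ) : ℝ := g N σ k - g N σ (k - 1)

lemma g_zero (N : ℕ) (σ : ℝ) : g N σ 0 = 0 := by
  have : win N 0 = ∅ := by
    unfold win
    simp
  unfold g
  rw [this]
  obtain ⟨A, hA, -, h⟩ := exists_Mx ∅ (w σ)
  rw [h, subset_empty.1 hA, sum_empty]

lemma sum_h (N : ℕ) (σ : ℝ) (m : ℕ) : ∑ k ∈ Icc 1 m, h N σ k = g N σ m := by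
  induction m with
  | zero => simp [g_zero]
  | succ m ih =>
    rw [Finset.sum_Icc_succ_top (by omega), ih]
    unfold h
    simp

lemma G_eq (N : ℕ) (σ : ℝ) (n : ℕ) : G N σ n = ∑ k ∈ Icc 1 n, h N σ k * R N σ 0 (n / k) := by
  unfold G
  have h1 : ∀ r ∈ rg N n, w σ r * g N σ (n / r) = ∑ k ∈ Icc 1 (n / r), w σ r * h N σ k := by
    intro r _
    rw [← mul_sum, sum_h]
  rw [sum_congr rfl h1]
  have h2 : ∀ r k : ℕ, (r ∈ rg N n ∧ k ∈ Icc 1 (n / r)) ↔ (r ∈ rg N (n / k) ∧ k ∈ Icc 1 n) := by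
    intro r k
    unfold rg
    simp only [mem_filter, mem_Ioc, mem_Icc]
    constructor
    · rintro ⟨⟨⟨a, b⟩, c⟩, d, e⟩
      rw [Nat.le_div_iff_mul_le a] at e
      refine ⟨⟨⟨a, ?_⟩, c⟩, d, ?_⟩
      · rw [Nat.le_div_iff_mul_le (by omega), mul_comm]; exact e
      · exact le_trans (Nat.le_mul_of_pos_right k a) e
    · rintro ⟨⟨⟨a, b⟩, c⟩, d, e⟩
      rw [Nat.le_div_iff_mul_le (by omega)] at b
      refine ⟨⟨⟨a, ?_⟩, c⟩, d, ?_⟩
      · exact le_trans (Nat.le_mul_of_pos_right r (by omega)) b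
      · rw [Nat.le_div_iff_mul_le a, mul_comm]; exact b
  rw [sum_comm' h2]
  refine sum_congr rfl fun k _ => ?_
  unfold R rg
  rw [mul_sum]
  exact sum_congr rfl fun r _ => mul_comm _ _

lemma Mx_insert (U : Finset ℕ) (x : ℕ) (f : ℕ → ℝ) (hf : 0 ≤ f x) : Mx (insert x U) f ≤ Mx U f + f x := by
  classical
  obtain ⟨A, hA, hP, h⟩ := exists_Mx (insert x U) f
  rw [h]
  have h1 : ∑ a ∈ A.erase x, f a ≤ Mx U f := by
    apply le_Mx _ (hP.subset (erase_subset _ _))
    intro a ha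
    rw [mem_erase] at ha
    exact mem_of_mem_insert_of_ne (hA ha.2) ha.1
  by_cases hx : x ∈ A
  · rw [← sum_erase_add _ _ hx]
    linarith
  · rw [erase_eq_of_notMem hx] at h1
    linarith

lemma Mx_mono {U V : Finset ℕ} (hUV : U ⊆ V) (f : ℕ → ℝ) : Mx U f ≤ Mx V f := by
  obtain ⟨A, hA, hP, h⟩ := exists_Mx U f
  rw [h]
  exact le_Mx (hA.trans hUV) hP f

lemma abs_h_le {N : ℕ} (hN : N ∈ N.smoothNumbers) {σ : ℝ} (h0 : 0 ≤ σ) (h1 : σ < 1) {k : ℕ}
    (hk : 0 < k) :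
    |h N σ k| ≤ (1 + N) * (N.smoothNumbers).indicator (fun k => w σ k) k := by
  classical
  have hNpos : 0 < N := Nat.pos_of_ne_zero (Nat.ne_zero_of_mem_smoothNumbers hN)
  -- upper bound
  have hup : g N σ k ≤ g N σ (k - 1) + (N.smoothNumbers).indicator (fun k => w σ k) k := by
    by_cases hs : k ∈ N.smoothNumbers
    · rw [Set.indicator_of_mem hs]
      unfold g
      refine le_trans (Mx_mono ?_ _) (Mx_insert (win N (k - 1)) k (w σ) (w_nonneg _ _))
      intro s hs'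
      unfold win at hs' ⊢
      rw [mem_filter, mem_Icc] at hs'
      rw [mem_insert, mem_filter, mem_Icc]
      by_cases hsk : s = k
      · exact Or.inl hsk
      · exact Or.inr ⟨⟨hs'.1.1, by omega⟩, hs'.2.1, by omega⟩
    · rw [Set.indicator_of_notMem hs, add_zero]
      unfold g
      apply Mx_mono
      intro s hs'
      unfold win at hs' ⊢
      rw [mem_filter, mem_Icc] at hs' ⊢
      have hsk : s ≠ k := by rintro rfl; exact hs hs'.2.1
      exact ⟨⟨hs'.1.1, by omega⟩, hs'.2.1, by omega⟩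
  have hlow : g N σ (k - 1) ≤ g N σ k + N * (N.smoothNumbers).indicator (fun k => w σ k) k := by
    by_cases hs : ∃ s ∈ N.smoothNumbers, N * s = k
    · obtain ⟨s, hs, hsk⟩ := hs
      have hkm : k ∈ N.smoothNumbers := by rw [← hsk]; exact Nat.mul_mem_smoothNumbers hN hs
      rw [Set.indicator_of_mem hkm]
      have h2 : w σ s ≤ N * w σ k := by
        rw [← hsk, w_mul, ← mul_assoc]
        have h3 : (1 : ℝ) ≤ N * w σ N := by
          have hN1 : (0 : ℝ) < N := by exact_mod_cast hNpos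
          unfold w
          have h4 : (N : ℝ) * (N : ℝ) ^ (-σ) = (N : ℝ) ^ (1 - σ) := by
            rw [sub_eq_add_neg, Real.rpow_add hN1, Real.rpow_one]
          rw [h4]
          exact Real.one_le_rpow (by exact_mod_cast hNpos) (by linarith)
        have := w_nonneg σ s
        nlinarith
      have h5 : Mx (win N (k - 1)) (w σ) ≤ Mx (win N k) (w σ) + w σ s := by
        refine le_trans (Mx_mono ?_ _) (Mx_insert (win N k) s (w σ) (w_nonneg _ _))
        intro s' hs'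
        unfold win at hs' ⊢
        rw [mem_filter, mem_Icc] at hs'
        rw [mem_insert, mem_filter, mem_Icc]
        by_cases hss : s' = s
        · exact Or.inl hss
        · refine Or.inr ⟨⟨hs'.1.1, by omega⟩, hs'.2.1, ?_⟩
          have h6 : N * s' ≠ k := by
            intro h7
            rw [← hsk] at h7
            exact hss (Nat.eq_of_mul_eq_mul_left hNpos h7)
          omega
      unfold g
      linarith
    · have h5 : Mx (win N (k - 1)) (w σ) ≤ Mx (win N k) (w σ) := by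
        apply Mx_mono
        intro s' hs'
        unfold win at hs' ⊢
        rw [mem_filter, mem_Icc] at hs' ⊢
        refine ⟨⟨hs'.1.1, by omega⟩, hs'.2.1, ?_⟩
        have h6 : N * s' ≠ k := fun h7 => hs ⟨s', hs'.2.1, h7⟩
        omega
      have h6 : 0 ≤ (N : ℝ) * (N.smoothNumbers).indicator (fun k => w σ k) k :=
        mul_nonneg (Nat.cast_nonneg _) (Set.indicator_nonneg (fun _ _ => w_nonneg _ _) _)
      unfold g
      linarith
  have h6 : 0 ≤ (N.smoothNumbers).indicator (fun k => w σ k) k :=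
    Set.indicator_nonneg (fun _ _ => w_nonneg _ _) _
  have h7 : 0 ≤ (N : ℝ) * (N.smoothNumbers).indicator (fun k => w σ k) k :=
    mul_nonneg (Nat.cast_nonneg _) h6
  unfold h
  rw [abs_le]
  constructor <;> linarith

lemma smooth_summable (N : ℕ) :
    Summable ((N.smoothNumbers).indicator (fun k : ℕ => (k : ℝ)⁻¹)) :=
  summable_subtype_iff_indicator.1 (smooth_hasSum N).1

lemma w_mul_rpow {σ : ℝ} {k : ℕ} (hk : 0 < k) : w σ k * (k : ℝ) ^ (-(1 - σ)) = (k : ℝ)⁻¹ := by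
  unfold w
  rw [← Real.rpow_add (by exact_mod_cast hk), ← Real.rpow_neg_one]
  congr 1
  ring

lemma div_rpow_le {p : ℝ} (hp : 0 ≤ p) {n k : ℕ} (hn : 0 < n) (hk : 0 < k) :
    (((n / k : ℕ) : ℝ)) ^ p / (n : ℝ) ^ p ≤ (k : ℝ) ^ (-p) := by
  have hk' : (0 : ℝ) < k := by exact_mod_cast hk
  have hn' : (0 : ℝ) < n := by exact_mod_cast hn
  rw [div_le_iff₀ (Real.rpow_pos_of_pos hn' _), Real.rpow_neg hk'.le, ← Real.inv_rpow hk'.le,
    ← Real.mul_rpow (by positivity) hn'.le]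
  apply Real.rpow_le_rpow (Nat.cast_nonneg _) _ hp
  rw [inv_mul_eq_div]
  exact Nat.cast_div_le

lemma tendsto_div_rpow {p : ℝ} {k : ℕ} (hk : 0 < k) :
    Tendsto (fun n : ℕ => (((n / k : ℕ) : ℝ)) ^ p / (n : ℝ) ^ p) atTop (𝓝 ((k : ℝ) ^ (-p))) := by
  have hk' : (0 : ℝ) < k := by exact_mod_cast hk
  have h1 : Tendsto (fun n : ℕ => ((n / k : ℕ) : ℝ) / (n : ℝ)) atTop (𝓝 ((k : ℝ)⁻¹)) := by
    have h2 : Tendsto (fun n : ℕ => (n : ℝ) / k) atTop atTop :=
      tendsto_natCast_atTop_atTop.atTop_div_const hk'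
    have h3 := (tendsto_nat_floor_div_atTop (R := ℝ)).comp h2
    have h4 := h3.mul_const ((k : ℝ)⁻¹)
    rw [one_mul] at h4
    refine h4.congr' ?_
    filter_upwards [eventually_gt_atTop 0] with n hn
    have hn' : (n : ℝ) ≠ 0 := by positivity
    simp only [Function.comp]
    rw [Nat.floor_div_natCast, Nat.floor_natCast]
    field_simp
  have h5 := h1.rpow_const (p := p) (Or.inl (by positivity))
  have h6 : ((k : ℝ)⁻¹) ^ p = (k : ℝ) ^ (-p) := by
    rw [Real.inv_rpow hk'.le, Real.rpow_neg hk'.le]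
  rw [h6] at h5
  refine h5.congr fun n => ?_
  rw [Real.div_rpow (Nat.cast_nonneg _) (Nat.cast_nonneg _)]

lemma R_ratio (N : ℕ) {σ : ℝ} (h0 : 0 ≤ σ) (h1 : σ < 1) :
    Tendsto (fun n : ℕ => R N σ 0 n / (n : ℝ) ^ (1 - σ)) atTop (𝓝 (κ N * (1 / (1 - σ)))) := by
  have hp : 0 < 1 - σ := by linarith
  have hT : Tendsto (fun n : ℕ => (n : ℝ) ^ (1 - σ)) atTop atTop :=
    (tendsto_rpow_atTop hp).comp tendsto_natCast_atTop_atTop
  have h2 := (W_ratio h0 h1).const_mul (κ N)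
  have h3 : Tendsto (fun n : ℕ => 2 * (Q N : ℝ) * ((n : ℝ) ^ (1 - σ))⁻¹) atTop (𝓝 0) := by
    have := hT.inv_tendsto_atTop.const_mul (2 * (Q N : ℝ))
    simpa using this
  have h4 : Tendsto (fun n : ℕ => R N σ 0 n / (n : ℝ) ^ (1 - σ) - κ N * (W σ n / (n : ℝ) ^ (1 - σ)))
      atTop (𝓝 0) := by
    refine squeeze_zero_norm (fun n => ?_) h3
    have h5 := abs_R N h0 n
    have h6 : R N σ 0 n / (n : ℝ) ^ (1 - σ) - κ N * (W σ n / (n : ℝ) ^ (1 - σ)) =
        (R N σ 0 n - κ N * W σ n) * ((n : ℝ) ^ (1 - σ))⁻¹ := by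
      rw [div_eq_mul_inv, div_eq_mul_inv]; ring
    rw [h6, norm_mul, Real.norm_eq_abs, Real.norm_of_nonneg (by positivity)]
    exact mul_le_mul_of_nonneg_right h5 (by positivity)
  have h7 := h4.add h2
  rw [zero_add] at h7
  refine h7.congr fun n => ?_
  ring

lemma G_ratio {N : ℕ} (hN : N ∈ N.smoothNumbers) {σ : ℝ} (h0 : 0 ≤ σ) (h1 : σ < 1) :
    ∃ L : ℝ, Tendsto (fun n : ℕ => G N σ n / (n : ℝ) ^ (1 - σ)) atTop (𝓝 L) := by
  classical
  have hp : 0 < 1 - σ := by linarith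
  obtain ⟨F, hF⟩ : ∃ F : ℕ → ℕ → ℝ, F = fun n k => if k ∈ Icc 1 n then
      h N σ k * (R N σ 0 (n / k) / (n : ℝ) ^ (1 - σ)) else 0 := ⟨_, rfl⟩
  obtain ⟨b, hb⟩ : ∃ b : ℕ → ℝ, b = fun k => ((1 + N) * (1 / (1 - σ))) *
      (N.smoothNumbers).indicator (fun k : ℕ => (k : ℝ)⁻¹) k := ⟨_, rfl⟩
  have hbs : Summable b := by rw [hb]; exact (smooth_summable N).mul_left _
  have hlim : ∀ k, Tendsto (fun n => F n k) atTop
      (𝓝 (if 0 < k then h N σ k * ((κ N * (1 / (1 - σ))) * (k : ℝ) ^ (-(1 - σ))) else 0)) := by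
    intro k
    rcases Nat.eq_zero_or_pos k with rfl | hk
    · rw [if_neg (lt_irrefl 0), hF]
      have : (fun n : ℕ => (fun n k => if k ∈ Icc 1 n then
          h N σ k * (R N σ 0 (n / k) / (n : ℝ) ^ (1 - σ)) else 0) n 0) = fun _ => 0 := by
        funext n
        simp
      rw [this]
      exact tendsto_const_nhds
    · rw [if_pos hk]
      have hdiv : Tendsto (fun n : ℕ => n / k) atTop atTop := Nat.tendsto_div_const_atTop hk.ne'
      have h2 := ((R_ratio N h0 h1).comp hdiv).mul (tendsto_div_rpow (p := 1 - σ) hk)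
      have h3 := h2.const_mul (h N σ k)
      refine h3.congr' ?_
      filter_upwards [eventually_ge_atTop k, hdiv.eventually_gt_atTop 0] with n hn hn2
      rw [hF]
      simp only [Function.comp]
      rw [if_pos (mem_Icc.2 ⟨hk, hn⟩)]
      have h4 : (((n / k : ℕ) : ℝ)) ^ (1 - σ) ≠ 0 :=
        (Real.rpow_pos_of_pos (by exact_mod_cast hn2) _).ne'
      have h5 : (n : ℝ) ^ (1 - σ) ≠ 0 := (Real.rpow_pos_of_pos (by
        have : 0 < n := by omega
        exact_mod_cast this) _).ne'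
      field_simp
  have hbound : ∀ᶠ n in atTop, ∀ k, ‖F n k‖ ≤ b k := by
    refine Eventually.of_forall fun n k => ?_
    have hbk : 0 ≤ b k := by
      rw [hb]
      have : 0 ≤ (N.smoothNumbers).indicator (fun k : ℕ => (k : ℝ)⁻¹) k :=
        Set.indicator_nonneg (fun _ _ => by positivity) _
      positivity
    rw [hF]
    simp only
    split_ifs with hk
    · rw [mem_Icc] at hk
      have hk0 : 0 < k := hk.1
      have hn0 : 0 < n := by omega
      have h2 := abs_h_le hN h0 h1 hk0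
      have h3 : R N σ 0 (n / k) / (n : ℝ) ^ (1 - σ) ≤ 1 / (1 - σ) * (k : ℝ) ^ (-(1 - σ)) := by
        have h4 := (R_le_W N σ (n / k)).trans (W_upper h0 h1 (n / k))
        have h5 := div_rpow_le hp.le hn0 hk0
        have h6 : (0 : ℝ) < (n : ℝ) ^ (1 - σ) := Real.rpow_pos_of_pos (by exact_mod_cast hn0) _
        calc R N σ 0 (n / k) / (n : ℝ) ^ (1 - σ) ≤
            (((n / k : ℕ) : ℝ) ^ (1 - σ) / (1 - σ)) / (n : ℝ) ^ (1 - σ) :=
              div_le_div_of_nonneg_right h4 h6.le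
          _ = 1 / (1 - σ) * ((((n / k : ℕ) : ℝ)) ^ (1 - σ) / (n : ℝ) ^ (1 - σ)) := by ring
          _ ≤ _ := mul_le_mul_of_nonneg_left h5 (by positivity)
      have h4 : 0 ≤ R N σ 0 (n / k) / (n : ℝ) ^ (1 - σ) :=
        div_nonneg (R_nonneg _ _ _ _) (Real.rpow_nonneg (Nat.cast_nonneg _) _)
      rw [norm_mul, Real.norm_eq_abs, Real.norm_of_nonneg h4]
      have h5 := mul_le_mul h2 h3 h4 (mul_nonneg (by positivity)
        (Set.indicator_nonneg (fun _ _ => w_nonneg _ _) _))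
      refine h5.trans (le_of_eq ?_)
      rw [hb]
      simp only
      by_cases hs : k ∈ N.smoothNumbers
      · rw [Set.indicator_of_mem hs, Set.indicator_of_mem hs, ← w_mul_rpow (σ := σ) hk0]
        ring
      · rw [Set.indicator_of_notMem hs, Set.indicator_of_notMem hs]
        ring
    · simpa using hbk
  have h9 := tendsto_tsum_of_dominated_convergence hbs hlim hbound
  refine ⟨_, h9.congr fun n => ?_⟩
  rw [tsum_eq_sum (s := Icc 1 n)]
  · rw [G_eq, sum_div]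
    refine sum_congr rfl fun k hk => ?_
    rw [hF]
    simp only
    rw [if_pos hk]
    ring
  · intro k hk
    rw [hF]
    simp only
    rw [if_neg hk]

lemma even_smooth {j : ℕ} (hj : 2 ≤ j) : 2 * j ∈ (2 * j).smoothNumbers := by
  rw [Nat.mem_smoothNumbers']
  intro p hp hd
  rcases (Nat.Prime.dvd_mul hp).1 hd with h | h
  · have := (Nat.prime_dvd_prime_iff_eq hp Nat.prime_two).1 h
    omega
  · have := Nat.le_of_dvd (by omega) h
    omega

/-- **The weighted size of the largest primitive set is regular.** -/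
lemma lemA {σ : ℝ} (h0 : 0 ≤ σ) (h1 : σ < 1) {ε : ℝ} (hε : 0 < ε) :
    ∃ L : ℝ, ∃ n₀ : ℕ, ∀ n : ℕ, n₀ ≤ n → |P σ n / (n : ℝ) ^ (1 - σ) - L| ≤ ε := by
  have hp : 0 < 1 - σ := by linarith
  have h2 : Tendsto (fun j : ℕ => 1 / (1 - σ) * (((2 * j : ℕ) : ℝ)) ^ (-(1 - σ))) atTop (𝓝 0) := by
    have h3 : Tendsto (fun j : ℕ => ((2 * j : ℕ) : ℝ)) atTop atTop :=
      tendsto_natCast_atTop_atTop.comp (tendsto_id.const_mul_atTop' (by norm_num))
    have h4 := ((tendsto_rpow_neg_atTop hp).comp h3).const_mul (1 / (1 - σ))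
    simpa using h4
  obtain ⟨j, hj1, hj2⟩ := ((h2.eventually (gt_mem_nhds (show 0 < ε / 2 by linarith))).and
    (eventually_ge_atTop 2)).exists
  obtain ⟨N, hNdef⟩ : ∃ N, N = 2 * j := ⟨_, rfl⟩
  have hN : N ∈ N.smoothNumbers := by rw [hNdef]; exact even_smooth hj2
  rw [← hNdef] at hj1
  obtain ⟨L, hL⟩ := G_ratio hN h0 h1
  have h5 := hL.eventually (Metric.closedBall_mem_nhds L (show 0 < ε / 2 by linarith))
  obtain ⟨n₀, hn₀⟩ := eventually_atTop.1 h5
  refine ⟨L, max n₀ 1, fun n hn => ?_⟩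
  have hn1 : 0 < n := by
    have := le_of_max_le_right hn
    omega
  have h6 := hn₀ n (le_of_max_le_left hn)
  rw [Real.dist_eq, abs_le] at h6
  have h7 : (0 : ℝ) < (n : ℝ) ^ (1 - σ) := Real.rpow_pos_of_pos (by exact_mod_cast hn1) _
  have hNpos : 0 < N := by omega
  have h8 : W σ (n / N) / (n : ℝ) ^ (1 - σ) ≤ ε / 2 := by
    refine le_trans ?_ hj1.le
    calc W σ (n / N) / (n : ℝ) ^ (1 - σ) ≤
        (((n / N : ℕ) : ℝ) ^ (1 - σ) / (1 - σ)) / (n : ℝ) ^ (1 - σ) :=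
          div_le_div_of_nonneg_right (W_upper h0 h1 _) h7.le
      _ = 1 / (1 - σ) * ((((n / N : ℕ) : ℝ)) ^ (1 - σ) / (n : ℝ) ^ (1 - σ)) := by ring
      _ ≤ _ := mul_le_mul_of_nonneg_left (div_rpow_le hp.le hn1 hNpos) (by positivity)
  have h9 : P σ n / (n : ℝ) ^ (1 - σ) ≤ W σ (n / N) / (n : ℝ) ^ (1 - σ) + G N σ n / (n : ℝ) ^ (1 - σ) := by
    rw [← add_div]
    exact div_le_div_of_nonneg_right (P_le N hNpos σ n) h7.le
  have h10 : G N σ n / (n : ℝ) ^ (1 - σ) ≤ P σ n / (n : ℝ) ^ (1 - σ) :=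
    div_le_div_of_nonneg_right (G_le N σ n) h7.le
  rw [abs_le]
  constructor <;> linarith [h6.1, h6.2]

end Pool.Agent.Q250.PS
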