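import Mathlib

set_option autoImplicit false

open Finset Filter Topology

namespace Pool.Agent.Q250.PS

/-- `w σ m = m ^ (-σ)` -/
noncomputable def w (σ : ℝ) (m : ℕ) : ℝ := (m : ℝ) ^ (-σ)

lemma w_pos {σ : ℝ} {m : ℕ} (hm : 0 < m) : 0 < w σ m :=
  Real.rpow_pos_of_pos (by exact_mod_cast hm) _

lemma w_nonneg (σ : ℝ) (m : ℕ) : 0 ≤ w σ m := Real.rpow_nonneg (Nat.cast_nonneg _) _

lemma w_mul (σ : ℝ) (a b : ℕ) : w σ (a * b) = w σ a * w σ b := by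
  unfold w
  push_cast
  exact Real.mul_rpow (Nat.cast_nonneg _) (Nat.cast_nonneg _)

lemma w_one (σ : ℝ) : w σ 1 = 1 := by simp [w]

lemma w_anti {σ : ℝ} (hσ : 0 ≤ σ) {a b : ℕ} (ha : 0 < a) (hab : a ≤ b) : w σ b ≤ w σ a := by
  unfold w
  exact Real.rpow_le_rpow_of_nonpos (by exact_mod_cast ha) (by exact_mod_cast hab) (by linarith)

lemma w_le_one {σ : ℝ} (hσ : 0 ≤ σ) {a : ℕ} (ha : 0 < a) : w σ a ≤ 1 := by
  have := w_anti hσ one_pos (show 1 ≤ a from ha)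
  rwa [w_one] at this

lemma succ_sub_le {x p : ℝ} (hx : 0 < x) (h0 : 0 ≤ p) (h1 : p ≤ 1) :
    (x + 1) ^ p - x ^ p ≤ p * x ^ (p - 1) := by
  have h2 : (x + 1) = x * (1 + 1 / x) := by field_simp
  have h3' : (0 : ℝ) < 1 / x := by positivity
  have h3 : (1 + 1 / x) ^ p ≤ 1 + p * (1 / x) :=
    rpow_one_add_le_one_add_mul_self (by linarith) h0 h1
  rw [h2, Real.mul_rpow hx.le (by positivity), Real.rpow_sub_one hx.ne']
  have h4 : 0 < x ^ p := Real.rpow_pos_of_pos hx _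
  calc x ^ p * (1 + 1 / x) ^ p - x ^ p ≤ x ^ p * (1 + p * (1 / x)) - x ^ p := by
        have := mul_le_mul_of_nonneg_left h3 h4.le
        linarith
    _ = p * (x ^ p / x) := by ring

lemma le_succ_sub {x p : ℝ} (hx : 0 ≤ x) (h0 : 0 ≤ p) (h1 : p ≤ 1) :
    p * (x + 1) ^ (p - 1) ≤ (x + 1) ^ p - x ^ p := by
  have hx1 : 0 < x + 1 := by linarith
  have h2 : x = (x + 1) * (1 + -(1 / (x + 1))) := by field_simp; ring
  have h5 : 1 / (x + 1) ≤ 1 := by rw [div_le_one hx1]; linarith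
  have h3 : (1 + -(1 / (x + 1))) ^ p ≤ 1 + p * (-(1 / (x + 1))) :=
    rpow_one_add_le_one_add_mul_self (by linarith) h0 h1
  have h4 : 0 < (x + 1) ^ p := Real.rpow_pos_of_pos hx1 _
  have h6 : x ^ p ≤ (x + 1) ^ p * (1 + p * (-(1 / (x + 1)))) := by
    calc x ^ p = ((x + 1) * (1 + -(1 / (x + 1)))) ^ p := by rw [← h2]
      _ = (x + 1) ^ p * (1 + -(1 / (x + 1))) ^ p := Real.mul_rpow hx1.le (by linarith)
      _ ≤ _ := mul_le_mul_of_nonneg_left h3 h4.le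
  rw [Real.rpow_sub_one hx1.ne']
  calc p * ((x + 1) ^ p / (x + 1)) = (x + 1) ^ p - (x + 1) ^ p * (1 + p * (-(1 / (x + 1)))) := by
        ring
    _ ≤ _ := by linarith

lemma neg_sub_le {x η : ℝ} (hx : 0 < x) (h0 : 0 ≤ η) (h1 : η ≤ 1) :
    x ^ (-η) - (x + 1) ^ (-η) ≤ η * x ^ (-(1 + η)) := by
  have hx1 : 0 < x + 1 := by linarith
  have h := succ_sub_le hx h0 h1
  have ha : 0 < x ^ η := Real.rpow_pos_of_pos hx _
  have hb : 0 < (x + 1) ^ η := Real.rpow_pos_of_pos hx1 _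
  have hab : x ^ η ≤ (x + 1) ^ η := Real.rpow_le_rpow hx.le (by linarith) h0
  rw [Real.rpow_neg hx.le, Real.rpow_neg hx1.le, Real.rpow_neg hx.le, Real.rpow_one_add' hx.le (by linarith)]
  rw [Real.rpow_sub_one hx.ne'] at h
  have h3 : (x ^ η)⁻¹ - ((x + 1) ^ η)⁻¹ = ((x + 1) ^ η - x ^ η) / (x ^ η * (x + 1) ^ η) := by
    field_simp
  rw [h3, div_le_iff₀ (by positivity)]
  calc (x + 1) ^ η - x ^ η ≤ η * (x ^ η / x) := h
    _ ≤ η * ((x + 1) ^ η / x) := by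
        apply mul_le_mul_of_nonneg_left _ h0
        exact div_le_div_of_nonneg_right hab hx.le
    _ = η * (x * x ^ η)⁻¹ * (x ^ η * (x + 1) ^ η) := by field_simp

lemma le_neg_sub {x η : ℝ} (hx : 0 < x) (h0 : 0 ≤ η) (h1 : η ≤ 1) :
    η * (x + 1) ^ (-(1 + η)) ≤ x ^ (-η) - (x + 1) ^ (-η) := by
  have hx1 : 0 < x + 1 := by linarith
  have h := le_succ_sub hx.le h0 h1
  have ha : 0 < x ^ η := Real.rpow_pos_of_pos hx _
  have hb : 0 < (x + 1) ^ η := Real.rpow_pos_of_pos hx1 _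
  have hab : x ^ η ≤ (x + 1) ^ η := Real.rpow_le_rpow hx.le (by linarith) h0
  rw [Real.rpow_neg hx.le, Real.rpow_neg hx1.le, Real.rpow_neg hx1.le,
    Real.rpow_one_add' hx1.le (by linarith)]
  rw [Real.rpow_sub_one hx1.ne'] at h
  have h3 : (x ^ η)⁻¹ - ((x + 1) ^ η)⁻¹ = ((x + 1) ^ η - x ^ η) / (x ^ η * (x + 1) ^ η) := by
    field_simp
  rw [h3, le_div_iff₀ (by positivity)]
  calc η * ((x + 1) * (x + 1) ^ η)⁻¹ * (x ^ η * (x + 1) ^ η) = η * (x ^ η / (x + 1)) := by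
        field_simp
    _ ≤ η * ((x + 1) ^ η / (x + 1)) := by
        apply mul_le_mul_of_nonneg_left _ h0
        exact div_le_div_of_nonneg_right hab hx1.le
    _ ≤ _ := h

/-- the sum of the weights up to `n` -/
noncomputable def W (σ : ℝ) (n : ℕ) : ℝ := ∑ m ∈ Icc 1 n, w σ m

lemma W_zero (σ : ℝ) : W σ 0 = 0 := by simp [W]

lemma W_succ (σ : ℝ) (n : ℕ) : W σ (n + 1) = W σ n + w σ (n + 1) := by
  unfold W
  rw [Finset.sum_Icc_succ_top (by omega)]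

lemma W_nonneg (σ : ℝ) (n : ℕ) : 0 ≤ W σ n := sum_nonneg fun _ _ => w_nonneg _ _

lemma W_mono (σ : ℝ) {m n : ℕ} (h : m ≤ n) : W σ m ≤ W σ n :=
  sum_le_sum_of_subset_of_nonneg (Icc_subset_Icc_right h) fun _ _ _ => w_nonneg _ _

lemma W_upper {σ : ℝ} (h0 : 0 ≤ σ) (h1 : σ < 1) (n : ℕ) :
    W σ n ≤ (n : ℝ) ^ (1 - σ) / (1 - σ) := by
  have hp : 0 < 1 - σ := by linarith
  induction n with
  | zero => rw [W_zero]; positivity
  | succ n ih =>
    rw [W_succ]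
    have h := le_succ_sub (x := (n : ℝ)) (p := 1 - σ) (Nat.cast_nonneg _) hp.le (by linarith)
    have h2 : w σ (n + 1) = ((n : ℝ) + 1) ^ (1 - σ - 1) := by
      unfold w; push_cast; congr 1; ring
    rw [h2]
    push_cast
    rw [le_div_iff₀ hp] at ih ⊢
    nlinarith

lemma W_lower {σ : ℝ} (h0 : 0 ≤ σ) (h1 : σ < 1) (n : ℕ) :
    (((n : ℝ) + 1) ^ (1 - σ) - 1) / (1 - σ) ≤ W σ n := by
  have hp : 0 < 1 - σ := by linarith
  induction n with
  | zero => rw [W_zero]; simp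
  | succ n ih =>
    rw [W_succ]
    have h := succ_sub_le (x := (n : ℝ) + 1) (p := 1 - σ) (by positivity) hp.le (by linarith)
    have h2 : w σ (n + 1) = ((n : ℝ) + 1) ^ (1 - σ - 1) := by
      unfold w; push_cast; congr 1; ring
    rw [h2]
    push_cast
    rw [div_le_iff₀ hp] at ih ⊢
    nlinarith

lemma W_lower' {σ : ℝ} (h0 : 0 ≤ σ) (h1 : σ < 1) (n : ℕ) :
    ((n : ℝ) ^ (1 - σ) - 1) / (1 - σ) ≤ W σ n := by
  refine le_trans ?_ (W_lower h0 h1 n)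
  have hp : 0 < 1 - σ := by linarith
  apply div_le_div_of_nonneg_right _ hp.le
  have : (n : ℝ) ^ (1 - σ) ≤ ((n : ℝ) + 1) ^ (1 - σ) :=
    Real.rpow_le_rpow (Nat.cast_nonneg _) (by linarith) hp.le
  linarith

lemma W_tendsto {σ : ℝ} (h0 : 0 ≤ σ) (h1 : σ < 1) : Tendsto (W σ) atTop atTop := by
  have hp : 0 < 1 - σ := by linarith
  refine tendsto_atTop_mono (W_lower' h0 h1) ?_
  apply Tendsto.atTop_div_const hp
  apply tendsto_atTop_add_const_right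
  exact (tendsto_rpow_atTop hp).comp tendsto_natCast_atTop_atTop

lemma W_ratio {σ : ℝ} (h0 : 0 ≤ σ) (h1 : σ < 1) :
    Tendsto (fun n : ℕ => W σ n / (n : ℝ) ^ (1 - σ)) atTop (𝓝 (1 / (1 - σ))) := by
  have hp : 0 < 1 - σ := by linarith
  have hT : Tendsto (fun n : ℕ => (n : ℝ) ^ (1 - σ)) atTop atTop :=
    (tendsto_rpow_atTop hp).comp tendsto_natCast_atTop_atTop
  have h2 : Tendsto (fun n : ℕ => 1 / (1 - σ) - ((n : ℝ) ^ (1 - σ))⁻¹ / (1 - σ)) atTop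
      (𝓝 (1 / (1 - σ))) := by
    have := (hT.inv_tendsto_atTop.div_const (1 - σ)).const_sub (1 / (1 - σ))
    simpa using this
  refine tendsto_of_tendsto_of_tendsto_of_le_of_le' h2 tendsto_const_nhds ?_ ?_
  · filter_upwards [eventually_gt_atTop 0] with n hn
    have hn' : (0 : ℝ) < (n : ℝ) ^ (1 - σ) := Real.rpow_pos_of_pos (by exact_mod_cast hn) _
    rw [le_div_iff₀ hn']
    refine le_trans (le_of_eq ?_) (W_lower' h0 h1 n)
    field_simp
  · filter_upwards [eventually_gt_atTop 0] with n hn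
    have hn' : (0 : ℝ) < (n : ℝ) ^ (1 - σ) := Real.rpow_pos_of_pos (by exact_mod_cast hn) _
    rw [div_le_iff₀ hn']
    refine (W_upper h0 h1 n).trans (le_of_eq ?_)
    ring

end Pool.Agent.Q250.PS
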