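import Pool.Agent.Q250.PS.Pow

set_option autoImplicit false

open Finset Filter Topology

namespace Pool.Agent.Q250.PS

/-- product of the primes below `N` -/
def Q (N : ℕ) : ℕ := ∏ p ∈ N.primesBelow, p

lemma Q_pos (N : ℕ) : 0 < Q N :=
  prod_pos fun p hp => (Nat.prime_of_mem_primesBelow hp).pos

/-- density of the integers without prime factor below `N` -/
noncomputable def κ (N : ℕ) : ℝ := ((Q N).totient : ℝ) / (Q N : ℝ)

lemma κ_pos (N : ℕ) : 0 < κ N := by
  unfold κ
  have h1 : 0 < (Q N).totient := Nat.totient_pos.2 (Q_pos N)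
  have := Q_pos N
  positivity

lemma κ_le_one (N : ℕ) : κ N ≤ 1 := by
  unfold κ
  rw [div_le_one (by exact_mod_cast Q_pos N)]
  exact_mod_cast Nat.totient_le _

/-- the number of rough integers up to `k` -/
def cnt (N k : ℕ) : ℕ := #{r ∈ Icc 1 k | (Q N).Coprime r}

lemma cnt_add (N k : ℕ) : cnt N (k + Q N) = cnt N k + (Q N).totient := by
  unfold cnt
  rw [← Nat.filter_coprime_Ico_eq_totient (Q N) (k + 1), ← card_union_of_disjoint, ← filter_union]
  · congr 2
    ext x
    simp only [mem_Icc, mem_union, mem_Ico]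
    omega
  · apply disjoint_filter_filter
    rw [disjoint_left]
    intro x hx hx'
    rw [mem_Icc] at hx
    rw [mem_Ico] at hx'
    omega

lemma cnt_le (N k : ℕ) : cnt N k ≤ k := by
  unfold cnt
  refine (card_filter_le _ _).trans ?_
  simp

/-- `1` for rough integers, minus the density -/
noncomputable def e (N r : ℕ) : ℝ := (if (Q N).Coprime r then 1 else 0) - κ N

/-- partial sums of `e` -/
noncomputable def D (N k : ℕ) : ℝ := ∑ r ∈ Icc 1 k, e N r

lemma D_eq (N k : ℕ) : D N k = (cnt N k : ℝ) - κ N * k := by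
  unfold D e cnt
  rw [sum_sub_distrib, sum_boole, sum_const]
  simp
  ring

lemma D_succ (N k : ℕ) : D N (k + 1) = D N k + e N (k + 1) := by
  unfold D
  rw [Finset.sum_Icc_succ_top (by omega)]

lemma abs_D_le (N k : ℕ) : |D N k| ≤ Q N := by
  induction k using Nat.strong_induction_on with
  | _ k ih =>
    rcases lt_or_ge k (Q N) with h | h
    · rw [D_eq, abs_le]
      have h1 : (cnt N k : ℝ) ≤ k := by exact_mod_cast cnt_le N k
      have h2 : (k : ℝ) ≤ Q N := by exact_mod_cast h.le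
      have h3 := κ_pos N
      have h4 := κ_le_one N
      have h5 : (0 : ℝ) ≤ k := Nat.cast_nonneg _
      have h6 : (0 : ℝ) ≤ cnt N k := Nat.cast_nonneg _
      constructor <;> nlinarith
    · obtain ⟨j, rfl⟩ := Nat.exists_eq_add_of_le h
      have hQ := Q_pos N
      have := ih j (by omega)
      rw [D_eq] at this ⊢
      rw [add_comm (Q N) j, cnt_add]
      have h7 : κ N * (Q N : ℝ) = (Q N).totient := by
        unfold κ
        field_simp
      have h8 : ((cnt N j + (Q N).totient : ℕ) : ℝ) - κ N * ((j + Q N : ℕ) : ℝ) =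
          cnt N j - κ N * j := by
        push_cast
        rw [mul_add, h7]
        ring
      rw [h8]
      exact this

lemma sum_e_aux (N : ℕ) {σ : ℝ} (hσ : 0 ≤ σ) (a b : ℕ) (hab : a + 1 ≤ b) :
    |∑ r ∈ Ioc a b, e N r * w σ r - (D N b - D N a) * w σ b| ≤
      2 * Q N * (w σ (a + 1) - w σ b) := by
  induction b, hab using Nat.le_induction with
  | base =>
    have h1 : Ioc a (a + 1) = {a + 1} := by
      ext x
      simp only [mem_Ioc, mem_singleton]
      omega
    rw [h1, sum_singleton, D_succ]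
    simp
  | succ b hb ih =>
    have h1 : ∑ r ∈ Ioc a (b + 1), e N r * w σ r =
        ∑ r ∈ Ioc a b, e N r * w σ r + e N (b + 1) * w σ (b + 1) := by
      rw [← Finset.insert_Ioc_right_eq_Ioc_add_one (by omega), sum_insert (by simp), add_comm]
    have h2 : ∑ r ∈ Ioc a (b + 1), e N r * w σ r - (D N (b + 1) - D N a) * w σ (b + 1) =
        (∑ r ∈ Ioc a b, e N r * w σ r - (D N b - D N a) * w σ b) +
          (D N b - D N a) * (w σ b - w σ (b + 1)) := by
      rw [h1, D_succ]
      ring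
    rw [h2]
    have h3 : 0 ≤ w σ b - w σ (b + 1) := by
      have := w_anti hσ (show 0 < b by omega) (show b ≤ b + 1 by omega)
      linarith
    have h4 : |D N b - D N a| ≤ 2 * Q N := by
      have := abs_D_le N b
      have := abs_D_le N a
      calc |D N b - D N a| ≤ |D N b| + |D N a| := abs_sub _ _
        _ ≤ 2 * Q N := by linarith
    calc _ ≤ |∑ r ∈ Ioc a b, e N r * w σ r - (D N b - D N a) * w σ b| +
        |(D N b - D N a) * (w σ b - w σ (b + 1))| := abs_add_le _ _
      _ ≤ 2 * Q N * (w σ (a + 1) - w σ b) + 2 * Q N * (w σ b - w σ (b + 1)) := by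
          apply add_le_add ih
          rw [abs_mul, abs_of_nonneg h3]
          exact mul_le_mul_of_nonneg_right h4 h3
      _ = _ := by ring

lemma abs_sum_e (N : ℕ) {σ : ℝ} (hσ : 0 ≤ σ) (a b : ℕ) :
    |∑ r ∈ Ioc a b, e N r * w σ r| ≤ 2 * Q N * w σ (a + 1) := by
  rcases lt_or_ge a b with hab | hab
  · have h := sum_e_aux N hσ a b hab
    have h4 : |D N b - D N a| ≤ 2 * Q N := by
      have := abs_D_le N b
      have := abs_D_le N a
      calc |D N b - D N a| ≤ |D N b| + |D N a| := abs_sub _ _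
        _ ≤ 2 * Q N := by linarith
    have h5 := w_nonneg σ b
    have h6 : |(D N b - D N a) * w σ b| ≤ 2 * Q N * w σ b := by
      rw [abs_mul, abs_of_nonneg h5]
      exact mul_le_mul_of_nonneg_right h4 h5
    calc |∑ r ∈ Ioc a b, e N r * w σ r| =
        |(∑ r ∈ Ioc a b, e N r * w σ r - (D N b - D N a) * w σ b) + (D N b - D N a) * w σ b| := by
          ring_nf
      _ ≤ _ := abs_add_le _ _
      _ ≤ 2 * Q N * (w σ (a + 1) - w σ b) + 2 * Q N * w σ b := add_le_add h h6
      _ = _ := by ring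
  · rw [Ioc_eq_empty (by omega)]
    simp only [sum_empty, abs_zero]
    have := w_nonneg σ (a + 1)
    positivity

/-- the weighted sum over the rough integers in `(a, b]` -/
noncomputable def R (N : ℕ) (σ : ℝ) (a b : ℕ) : ℝ :=
  ∑ r ∈ (Ioc a b).filter (fun r => (Q N).Coprime r), w σ r

lemma R_eq (N : ℕ) (σ : ℝ) (a b : ℕ) :
    R N σ a b = κ N * ∑ r ∈ Ioc a b, w σ r + ∑ r ∈ Ioc a b, e N r * w σ r := by
  unfold R e
  rw [sum_filter, mul_sum, ← sum_add_distrib]
  refine sum_congr rfl fun r _ => ?_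
  split_ifs <;> ring

lemma R_le (N : ℕ) {σ : ℝ} (hσ : 0 ≤ σ) (a b : ℕ) :
    R N σ a b ≤ κ N * ∑ r ∈ Ioc a b, w σ r + 2 * Q N * w σ (a + 1) := by
  rw [R_eq]
  have := (abs_le.1 (abs_sum_e N hσ a b)).2
  linarith

lemma abs_R (N : ℕ) {σ : ℝ} (hσ : 0 ≤ σ) (b : ℕ) :
    |R N σ 0 b - κ N * W σ b| ≤ 2 * Q N := by
  have h : (∑ r ∈ Ioc 0 b, w σ r) = W σ b := by
    unfold W
    congr 1
  rw [R_eq, h]
  have := abs_sum_e N hσ 0 b
  rw [zero_add, w_one, mul_one] at this
  simpa using this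

lemma R_nonneg (N : ℕ) (σ : ℝ) (a b : ℕ) : 0 ≤ R N σ a b :=
  sum_nonneg fun _ _ => w_nonneg _ _

lemma R_le_W (N : ℕ) (σ : ℝ) (b : ℕ) : R N σ 0 b ≤ W σ b := by
  unfold R W
  refine sum_le_sum_of_subset_of_nonneg ?_ fun _ _ _ => w_nonneg _ _
  intro x hx
  rw [mem_filter, mem_Ioc] at hx
  rw [mem_Icc]
  omega

end Pool.Agent.Q250.PS
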