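import Pool.Agent.Q250.PS.Rough

set_option autoImplicit false

open Finset Filter Topology

namespace Pool.Agent.Q250.PS

/-- no element divides a different element -/
def Prim (A : Finset ℕ) : Prop := ∀ a ∈ A, ∀ b ∈ A, a ∣ b → a = b

lemma Prim.subset {A B : Finset ℕ} (h : Prim A) (hB : B ⊆ A) : Prim B :=
  fun a ha b hb hab => h a (hB ha) b (hB hb) hab

/-- Sperner's theorem for the subsets of a finite set. -/
lemma sperner_powerset (T : Finset ℕ) (𝒜 : Finset (Finset ℕ)) (h : ∀ D ∈ 𝒜, D ⊆ T)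
    (hA : ∀ D ∈ 𝒜, ∀ D' ∈ 𝒜, D ⊆ D' → D = D') : #𝒜 ≤ (#T).choose (#T / 2) := by
  classical
  let f : Finset ℕ → Finset T := fun D => D.subtype (· ∈ T)
  have hf : ∀ D ∈ 𝒜, ∀ D' ∈ 𝒜, f D ⊆ f D' → D ⊆ D' := by
    intro D hD D' _ hs x hx
    have hxT := h D hD hx
    have : (⟨x, hxT⟩ : T) ∈ f D := by simpa [f] using hx
    simpa [f] using hs this
  have hinj : Set.InjOn f (𝒜 : Set (Finset ℕ)) := by
    intro D hD D' hD' hs
    exact hA D hD D' hD' (hf D hD D' hD' (le_of_eq hs))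
  rw [← card_image_of_injOn hinj]
  have hanti : IsAntichain (· ⊆ ·) ((𝒜.image f : Finset (Finset T)) : Set (Finset T)) := by
    intro a ha b hb hab hsub
    rw [mem_coe, mem_image] at ha hb
    obtain ⟨D, hD, rfl⟩ := ha
    obtain ⟨D', hD', rfl⟩ := hb
    exact hab (congrArg f (hA D hD D' hD' (hf D hD D' hD' hsub)))
  have := hanti.sperner
  simpa using this

open Classical in
/-- the weight of `B` in the box of `u`, the active primes `T` and the primes below `N` -/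
noncomputable def X (B : Finset ℕ) (N : ℕ) (T : Finset ℕ) (u : ℕ) : ℝ :=
  ∑ b ∈ B, ∑ D ∈ T.powerset,
    if u * ∏ p ∈ D, p ∣ b ∧ b / (u * ∏ p ∈ D, p) ∈ Nat.smoothNumbers N then
      ((u * ∏ p ∈ D, p : ℕ) : ℝ) / (b : ℝ) else 0

lemma X_nonneg (B : Finset ℕ) (N : ℕ) (T : Finset ℕ) (u : ℕ) : 0 ≤ X B N T u := by
  unfold X
  refine sum_nonneg fun b _ => sum_nonneg fun D _ => ?_
  split_ifs <;> positivity

lemma X_insert (B : Finset ℕ) (N : ℕ) (T : Finset ℕ) (u p : ℕ) (hp : p ∉ T) :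
    X B N (insert p T) u = X B N T u + X B N T (u * p) := by
  unfold X
  rw [← sum_add_distrib]
  refine sum_congr rfl fun b _ => ?_
  rw [sum_powerset_insert hp]
  congr 1
  refine sum_congr rfl fun D hD => ?_
  have hpD : p ∉ D := fun h => hp (mem_powerset.1 hD h)
  rw [prod_insert hpD, ← mul_assoc]

/-- the bound for antichains -/
noncomputable def Z (N : ℕ) : ℝ := ∏ p ∈ N.primesBelow, ((p : ℝ) / ((p : ℝ) - 1))

noncomputable def V (N : ℕ) : ℝ := ∏ p ∈ N.primesBelow, (1 + 1 / ((p : ℝ) * ((p : ℝ) - 1)))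

lemma prime_cast {p : ℕ} (hp : p.Prime) : (2 : ℝ) ≤ p := by exact_mod_cast hp.two_le

lemma Z_pos (N : ℕ) : 0 < Z N := by
  refine prod_pos fun p hp => ?_
  have := prime_cast (Nat.prime_of_mem_primesBelow hp)
  apply div_pos <;> linarith

lemma V_pos (N : ℕ) : 0 < V N := by
  refine prod_pos fun p hp => ?_
  have := prime_cast (Nat.prime_of_mem_primesBelow hp)
  have : 0 < (p : ℝ) * ((p : ℝ) - 1) := by apply mul_pos <;> linarith
  positivity

lemma geom_le {x : ℝ} (h0 : 0 ≤ x) (h1 : x < 1) (n : ℕ) : ∑ i ∈ range n, x ^ i ≤ 1 / (1 - x) := by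
  rw [le_div_iff₀ (by linarith), geom_sum_mul_neg]
  have := pow_nonneg h0 n
  linarith

lemma step {p A A' : ℝ} (hp : 2 ≤ p) (x : ℕ → ℝ) (hx : ∀ i, x i ≤ A) (h0 : ∀ i, 0 ≤ x i)
    (h01 : x 0 + x 1 ≤ A') (n : ℕ) :
    ∑ i ∈ range (n + 2), (1 / p) ^ i * x i ≤
      (1 - 1 / p) * A + 1 / p * A' + 1 / (p * (p - 1)) * A := by
  rw [sum_range_succ', sum_range_succ']
  have hp0 : (0 : ℝ) < 1 / p := by positivity
  have hp1 : 1 / p ≤ 1 / 2 := one_div_le_one_div_of_le (by norm_num) hp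
  have hA : 0 ≤ A := (h0 0).trans (hx 0)
  have h2 : ∑ i ∈ range n, (1 / p) ^ (i + 1 + 1) * x (i + 1 + 1) ≤ 1 / (p * (p - 1)) * A := by
    calc ∑ i ∈ range n, (1 / p) ^ (i + 1 + 1) * x (i + 1 + 1) ≤
        ∑ i ∈ range n, (1 / p) ^ 2 * A * (1 / p) ^ i := by
          refine sum_le_sum fun i _ => ?_
          have := mul_le_mul_of_nonneg_left (hx (i + 1 + 1)) (pow_nonneg hp0.le (i + 1 + 1))
          calc _ ≤ _ := this
            _ = _ := by ring
      _ = (1 / p) ^ 2 * A * ∑ i ∈ range n, (1 / p) ^ i := by rw [mul_sum]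
      _ ≤ (1 / p) ^ 2 * A * (1 / (1 - 1 / p)) := by
          apply mul_le_mul_of_nonneg_left (geom_le hp0.le (by linarith) n)
          positivity
      _ = 1 / (p * (p - 1)) * A := by
          have : p ≠ 0 := by linarith
          have : p - 1 ≠ 0 := by linarith
          field_simp
  have h3 : (1 - 1 / p) * x 0 ≤ (1 - 1 / p) * A :=
    mul_le_mul_of_nonneg_left (hx 0) (by linarith)
  have h4 : 1 / p * (x 0 + x 1) ≤ 1 / p * A' := mul_le_mul_of_nonneg_left h01 hp0.le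
  have h5 : (1 / p) ^ (0 + 1) * x (0 + 1) = 1 / p * x 1 := by simp
  have h6 : (1 / p) ^ 0 * x 0 = x 0 := by simp
  rw [h5, h6]
  linarith

lemma X_succ_le (B : Finset ℕ) (hB : ∀ b ∈ B, 0 < b) {p : ℕ} (hp : p.Prime) (T : Finset ℕ) (u : ℕ)
    (hu : 0 < u) (hT : ∀ q ∈ T, 0 < q) (n : ℕ) (hn : ∀ b ∈ B, b < n) :
    X B (p + 1) T u ≤ ∑ i ∈ range (n + 2), (1 / (p : ℝ)) ^ i * X B p T (u * p ^ i) := by
  classical
  have hR : ∑ i ∈ range (n + 2), (1 / (p : ℝ)) ^ i * X B p T (u * p ^ i) =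
      ∑ b ∈ B, ∑ D ∈ T.powerset, ∑ i ∈ range (n + 2), (1 / (p : ℝ)) ^ i *
        (if u * p ^ i * ∏ p ∈ D, p ∣ b ∧ b / (u * p ^ i * ∏ p ∈ D, p) ∈ Nat.smoothNumbers p then
          ((u * p ^ i * ∏ p ∈ D, p : ℕ) : ℝ) / (b : ℝ) else 0) := by
    unfold X
    simp_rw [mul_sum]
    rw [sum_comm]
    refine sum_congr rfl fun b _ => ?_
    rw [sum_comm]
  rw [hR]
  unfold X
  refine sum_le_sum fun b hb => sum_le_sum fun D hD => ?_
  have hv : 0 < u * ∏ p ∈ D, p := by
    apply Nat.mul_pos hu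
    exact prod_pos fun q hq => hT q (mem_powerset.1 hD hq)
  obtain ⟨v, hvdef⟩ : ∃ v, v = u * ∏ p ∈ D, p := ⟨_, rfl⟩
  have hterm : ∀ i, u * p ^ i * ∏ p ∈ D, p = v * p ^ i := fun i => by rw [hvdef]; ring
  simp_rw [hterm, ← hvdef]
  rw [← hvdef] at hv
  have hnn : ∀ i ∈ range (n + 2), (0 : ℝ) ≤ (1 / (p : ℝ)) ^ i *
      (if v * p ^ i ∣ b ∧ b / (v * p ^ i) ∈ Nat.smoothNumbers p then
        ((v * p ^ i : ℕ) : ℝ) / (b : ℝ) else 0) := by
    intro i _
    split_ifs <;> positivity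
  split_ifs with h
  · obtain ⟨⟨m, rfl⟩, h2⟩ := h
    rw [Nat.mul_div_cancel_left _ hv] at h2
    have hm : 0 < m := by
      rcases Nat.eq_zero_or_pos m with h0 | h0
      · subst h0; exact absurd (hB _ hb) (by simp)
      · exact h0
    obtain ⟨i, m', hm', rfl⟩ := Nat.exists_eq_pow_mul_and_not_dvd hm.ne' p hp.ne_one
    have hi : i < n + 2 := by
      have h3 : i < p ^ i := Nat.lt_pow_self hp.one_lt
      have h4 : p ^ i ≤ v * (p ^ i * m') := by
        have h5 : 0 < m' := Nat.pos_of_mul_pos_left hm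
        calc p ^ i = 1 * (p ^ i * 1) := by ring
          _ ≤ v * (p ^ i * m') := Nat.mul_le_mul hv (Nat.mul_le_mul_left _ h5)
      have := hn _ hb
      omega
    have hsm : m' ∈ Nat.smoothNumbers p := by
      have hm0 : m' ≠ 0 := (Nat.pos_of_mul_pos_left hm).ne'
      rw [Nat.mem_smoothNumbers'] at h2 ⊢
      intro q hq hqm
      have h6 := h2 q hq (hqm.mul_left _)
      have h7 : q ≠ p := by rintro rfl; exact hm' hqm
      omega
    refine le_trans (le_of_eq ?_) (single_le_sum hnn (mem_range.2 hi))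
    have h8 : v * p ^ i ∣ v * (p ^ i * m') := ⟨m', by ring⟩
    have h9 : v * (p ^ i * m') / (v * p ^ i) = m' := by
      rw [← mul_assoc]
      exact Nat.mul_div_cancel_left _ (Nat.mul_pos hv (pow_pos hp.pos _))
    rw [if_pos ⟨h8, by rw [h9]; exact hsm⟩]
    have hp' : (p : ℝ) ^ i ≠ 0 := by
      have : (p : ℝ) ≠ 0 := by exact_mod_cast hp.ne_zero
      positivity
    push_cast
    have h10 : ((1 : ℝ) / (p : ℝ)) ^ i * ((v : ℝ) * (p : ℝ) ^ i) = v := by
      rw [one_div, inv_pow]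
      field_simp
    rw [mul_div_assoc', h10]
  · exact sum_nonneg hnn

/-- the inductive bound -/
lemma X_le (B : Finset ℕ) (hB : ∀ b ∈ B, 0 < b) (hprim : Prim B) {β : ℝ} (hβ : 0 ≤ β) {M : ℕ}
    (hM : ∀ m : ℕ, M ≤ m → (m.choose (m / 2) : ℝ) ≤ β * 2 ^ m) (N : ℕ) :
    ∀ (T : Finset ℕ) (u : ℕ), (∀ q ∈ T, q.Prime ∧ N ≤ q) → 0 < u →
      X B N T u ≤ Z N * β * 2 ^ (#T) + 2 ^ M * V N := by
  classical
  induction N with
  | zero =>
    intro T u hT hu
    have hZ : Z 0 = 1 := by simp [Z]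
    have hV : V 0 = 1 := by simp [V]
    rw [hZ, hV]
    obtain ⟨𝒜, h𝒜⟩ : ∃ 𝒜, 𝒜 = T.powerset.filter (fun D => u * ∏ p ∈ D, p ∈ B) := ⟨_, rfl⟩
    have h1 : X B 0 T u ≤ #𝒜 := by
      have h2 : X B 0 T u = ∑ D ∈ T.powerset, ∑ b ∈ B,
          (if u * ∏ p ∈ D, p ∣ b ∧ b / (u * ∏ p ∈ D, p) ∈ Nat.smoothNumbers 0 then
            ((u * ∏ p ∈ D, p : ℕ) : ℝ) / (b : ℝ) else 0) := by
        unfold X
        rw [sum_comm]
      rw [h2, h𝒜, card_filter, Nat.cast_sum]
      refine sum_le_sum fun D _ => ?_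
      have h3 : ∀ b ∈ B, (if u * ∏ p ∈ D, p ∣ b ∧ b / (u * ∏ p ∈ D, p) ∈ Nat.smoothNumbers 0 then
            ((u * ∏ p ∈ D, p : ℕ) : ℝ) / (b : ℝ) else 0) = if u * ∏ p ∈ D, p = b then 1 else 0 := by
        intro b hb
        have hb0 := hB b hb
        by_cases h : u * ∏ p ∈ D, p = b
        · rw [if_pos h, h, if_pos]
          · rw [div_self]
            exact_mod_cast hb0.ne'
          · refine ⟨dvd_rfl, ?_⟩
            rw [Nat.div_self hb0]
            simp
        · rw [if_neg h, if_neg]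
          rintro ⟨h4, h5⟩
          rw [Nat.smoothNumbers_zero, Set.mem_singleton_iff] at h5
          obtain ⟨c, hc⟩ := h4
          have hpos : 0 < u * ∏ p ∈ D, p := by
            rcases Nat.eq_zero_or_pos (u * ∏ p ∈ D, p) with h0 | h0
            · rw [h0, zero_mul] at hc; omega
            · exact h0
          rw [hc, Nat.mul_div_cancel_left _ hpos] at h5
          exact h (by rw [hc, h5, mul_one])
      rw [sum_congr rfl h3, sum_ite_eq]
      push_cast
      exact le_rfl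
    have h4 : #𝒜 ≤ (#T).choose (#T / 2) := by
      apply sperner_powerset
      · intro D hD
        rw [h𝒜, mem_filter, mem_powerset] at hD
        exact hD.1
      · intro D hD D' hD' hsub
        rw [h𝒜, mem_filter, mem_powerset] at hD hD'
        have h5 : u * ∏ p ∈ D, p = u * ∏ p ∈ D', p :=
          hprim _ hD.2 _ hD'.2 (Nat.mul_dvd_mul_left _ (prod_dvd_prod_of_subset _ _ _ hsub))
        have h6 := Nat.eq_of_mul_eq_mul_left hu h5
        rw [← prod_sdiff hsub] at h6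
        have h7 : 0 < ∏ p ∈ D, p := prod_pos fun q hq => (hT q (hD.1 hq)).1.pos
        have h8 : ∏ p ∈ D' \ D, p = 1 := by
          have : 1 * ∏ p ∈ D, p = (∏ p ∈ D' \ D, p) * ∏ p ∈ D, p := by rw [one_mul]; exact h6
          exact (Nat.eq_of_mul_eq_mul_right h7 this).symm
        have h9 : D' \ D = ∅ := by
          by_contra hne
          obtain ⟨q, hq⟩ := nonempty_iff_ne_empty.2 hne
          have h10 : q ∣ 1 := by rw [← h8]; exact dvd_prod_of_mem _ hq
          exact (hT q (hD'.1 (mem_sdiff.1 hq).1)).1.one_lt.ne' (Nat.dvd_one.1 h10)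
        exact hsub.antisymm (sdiff_eq_empty_iff_subset.1 h9)
    have h5 : ((#𝒜 : ℕ) : ℝ) ≤ ((#T).choose (#T / 2) : ℕ) := by exact_mod_cast h4
    rcases le_or_gt M (#T) with h6 | h6
    · have h7 := hM _ h6
      have : (0 : ℝ) ≤ 2 ^ M * 1 := by positivity
      linarith
    · have h7 : (((#T).choose (#T / 2) : ℕ) : ℝ) ≤ 2 ^ (#T) := by
        exact_mod_cast Nat.choose_le_two_pow _ _
      have h8 : (2 : ℝ) ^ (#T) ≤ 2 ^ M := pow_le_pow_right₀ (by norm_num) h6.le
      have : (0 : ℝ) ≤ 1 * β * 2 ^ (#T) := by positivity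
      linarith
  | succ N ih =>
    intro T u hT hu
    by_cases hN : N.Prime
    · have hNT : N ∉ T := fun h => by have := (hT N h).2; omega
      obtain ⟨n, hn⟩ : ∃ n, ∀ b ∈ B, b < n := ⟨B.sup id + 1, fun b hb => by
        have := le_sup (f := id) hb
        simp only [id] at this
        omega⟩
      refine (X_succ_le B hB hN T u hu (fun q hq => (hT q hq).1.pos) n hn).trans ?_
      have hT' : ∀ q ∈ T, q.Prime ∧ N ≤ q := fun q hq => ⟨(hT q hq).1, by
        have := (hT q hq).2; omega⟩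
      have hT2 : ∀ q ∈ insert N T, q.Prime ∧ N ≤ q := by
        intro q hq
        rw [mem_insert] at hq
        rcases hq with rfl | hq
        · exact ⟨hN, le_rfl⟩
        · exact hT' q hq
      have h01 : X B N T (u * N ^ 0) + X B N T (u * N ^ 1) ≤
          Z N * β * 2 ^ (#T + 1) + 2 ^ M * V N := by
        rw [pow_zero, mul_one, pow_one, ← X_insert B N T u N hNT, ← card_insert_of_notMem hNT]
        exact ih _ _ hT2 hu
      have hs := step (p := (N : ℝ)) (prime_cast hN) (fun i => X B N T (u * N ^ i))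
        (fun i => ih T (u * N ^ i) hT' (Nat.mul_pos hu (pow_pos hN.pos _)))
        (fun i => X_nonneg _ _ _ _) h01 n
      refine hs.trans (le_of_eq ?_)
      have hN1 : (N : ℝ) - 1 ≠ 0 := by have := prime_cast hN; linarith
      have hN0 : (N : ℝ) ≠ 0 := by have := prime_cast hN; linarith
      have hnot : N ∉ N.primesBelow := by simp [Nat.primesBelow]
      have hZ : Z (N + 1) = (N : ℝ) / ((N : ℝ) - 1) * Z N := by
        unfold Z
        rw [Nat.primesBelow_succ, if_pos hN, prod_insert hnot]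
      have hV : V (N + 1) = (1 + 1 / ((N : ℝ) * ((N : ℝ) - 1))) * V N := by
        unfold V
        rw [Nat.primesBelow_succ, if_pos hN, prod_insert hnot]
      rw [hZ, hV]
      field_simp
      ring
    · have h1 : X B (N + 1) T u = X B N T u := by
        have h0 : ∀ m, m ∈ Nat.smoothNumbers (N + 1) ↔ m ∈ Nat.smoothNumbers N := by
          intro m
          rw [Nat.smoothNumbers_succ hN]
        unfold X
        simp only [h0]
      have hZ : Z (N + 1) = Z N := by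
        unfold Z; rw [Nat.primesBelow_succ, if_neg hN]
      have hV : V (N + 1) = V N := by
        unfold V; rw [Nat.primesBelow_succ, if_neg hN]
      rw [h1, hZ, hV]
      exact ih T u (fun q hq => ⟨(hT q hq).1, by have := (hT q hq).2; omega⟩) hu

/-- **Antichains of smooth numbers.** -/
lemma smooth_le (B : Finset ℕ) (hprim : Prim B) {β : ℝ} (hβ : 0 ≤ β) {M : ℕ}
    (hM : ∀ m : ℕ, M ≤ m → (m.choose (m / 2) : ℝ) ≤ β * 2 ^ m) (N : ℕ)
    (hB : ∀ b ∈ B, b ∈ Nat.smoothNumbers N) :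
    ∑ b ∈ B, (1 : ℝ) / b ≤ Z N * β + 2 ^ M * V N := by
  have hpos : ∀ b ∈ B, 0 < b := fun b hb => Nat.pos_of_ne_zero (Nat.ne_zero_of_mem_smoothNumbers (hB b hb))
  have h := X_le B hpos hprim hβ hM N ∅ 1 (by simp) one_pos
  have h2 : X B N ∅ 1 = ∑ b ∈ B, (1 : ℝ) / b := by
    unfold X
    refine sum_congr rfl fun b hb => ?_
    simp [hB b hb]
  rw [h2] at h
  simpa using h

end Pool.Agent.Q250.PS
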